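import Pool.Agent.Helper454.Bott.Link

set_option autoImplicit false
set_option linter.unusedSectionVars false
open scoped Manifold ContDiff Topology
open Set VectorField Pool.Agent.Helper454.EngelDefs

namespace Pool.Agent.Helper454.Bott

variable {A : Fin 4 → Fin 4 → ℤ} [LT A] {K : E4 → Submodule ℝ E4}

lemma ds_dist {k : ℕ} (hK : InvK A K) (X : Fin k → E4 → E4) (hX : ∀ i, ContDiff ℝ ∞ (X i))
    (hli : ∀ p, LinearIndependent ℝ (fun i => X i p))
    (hsp : ∀ p, K p = Submodule.span ℝ (Set.range fun i => X i p)) :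
    IsDistribution k (ds (A := A) K) := by
  intro y
  obtain ⟨p, rfl⟩ := (pr_cov (A := A)).surjective y
  choose Xb hs hv using fun i => local_push (A := A) p (X := X i)
    (Filter.Eventually.of_forall fun q => (hX i).contDiffAt)
  refine ⟨Xb, hs, ?_⟩
  apply ev_of_ev_pr
  filter_upwards [Filter.eventually_all.2 hv] with q hq
  have e : (fun i => Xb i (pr A q)) = fun i => dpr A q (X i q) := by
    funext i; exact hq i
  constructor
  · have h1 := (hli q).map' (dpr A q : E4 →ₗ[ℝ] E4) (LinearMap.ker_eq_bot.2 (dpr_bij q).1)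
    have h2 : LinearIndependent ℝ (fun i => dpr A q (X i q)) := h1
    rw [← e] at h2
    exact h2
  · rw [ds_apply hK, hsp, Submodule.map_span, ← Set.range_comp]
    have e2 : (⇑(dpr A q : E4 →ₗ[ℝ] E4) ∘ fun i => X i q) = fun i => Xb i (pr A q) := e.symm
    rw [e2]
    rfl

/-- sections of the quotient distribution have brackets in the derived distribution -/
lemma bracket_mem (hK : InvK A K) {X Y : E4 → E4} (hX : ContDiff ℝ ∞ X) (hY : ContDiff ℝ ∞ Y)
    (hXK : ∀ p, X p ∈ K p) (hYK : ∀ p, Y p ∈ K p) (p : E4) :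
    lieBracket ℝ X Y p ∈ lf (bracketDist (ds (A := A) K)) p := by
  obtain ⟨Xb, hXs, hXv⟩ := local_push (A := A) p (X := X)
    (Filter.Eventually.of_forall fun q => hX.contDiffAt)
  obtain ⟨Yb, hYs, hYv⟩ := local_push (A := A) p (X := Y)
    (Filter.Eventually.of_forall fun q => hY.contDiffAt)
  have hsec : ∀ (V : E4 → E4) (Vb : (y : BM A) → TangentSpace (𝓡 4) y),
      (∀ p, V p ∈ K p) → (∀ᶠ q in 𝓝 p, Vb (pr A q) = dpr A q (V q)) →
      ∀ᶠ y in 𝓝 (pr A p), Vb y ∈ ds (A := A) K y := by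
    intro V Vb hV hVb
    apply ev_of_ev_pr
    filter_upwards [hVb] with q hq
    rw [hq, ds_apply hK]
    exact ⟨V q, hV q, rfl⟩
  have e1 : pbk Xb =ᶠ[𝓝 p] X := by
    filter_upwards [hXv] with q hq
    apply (dpr_bij (A := A) q).1
    rw [dpr_pbk, hq]
  have e2 : pbk Yb =ᶠ[𝓝 p] Y := by
    filter_upwards [hYv] with q hq
    apply (dpr_bij (A := A) q).1
    rw [dpr_pbk, hq]
  rw [mem_lf]
  have h1 : dpr A p (lieBracket ℝ X Y p) = mlieBracket (𝓡 4) Xb Yb (pr A p) := by
    rw [← pbk_bracket hXs hYs, e1.lieBracket_vectorField_eq e2]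
  rw [h1]
  have h2 : mlieBracket (𝓡 4) Xb Yb (pr A p) ∈ bracketDist (ds (A := A) K) (pr A p) := by
    apply Submodule.mem_sup_right
    apply Submodule.subset_span
    exact ⟨Xb, Yb, ⟨hXs, hsec X Xb hXK hXv⟩, ⟨hYs, hsec Y Yb hYK hYv⟩, rfl⟩
  exact h2

lemma le_lf_bracket (hK : InvK A K) (p : E4) : K p ≤ lf (bracketDist (ds (A := A) K)) p := by
  intro v hv
  rw [mem_lf]
  have h1 : dpr A p v ∈ ds (A := A) K (pr A p) := by
    rw [ds_apply hK]; exact ⟨v, hv, rfl⟩
  have h2 : (show TangentSpace (𝓡 4) (pr A p) from dpr A p v) ∈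
      bracketDist (ds (A := A) K) (pr A p) := Submodule.mem_sup_left h1
  exact h2

/-- two distributions with the same lift agree -/
lemma eq_of_lf {D D' : (x : BM A) → Submodule ℝ (TangentSpace (𝓡 4) x)}
    (h : ∀ p, lf D p = lf D' p) (x : BM A) : D x = D' x := by
  obtain ⟨p, rfl⟩ := (pr_cov (A := A)).surjective x
  have := congrArg (Submodule.map (dpr A p : E4 →ₗ[ℝ] E4)) (h p)
  rw [map_lf, map_lf] at this
  exact this

lemma ds_foliation {q : ℕ} (Φ : Fin q → E4 →L[ℝ] ℝ)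
    (hΦ : ∀ c : Fin q → ℝ, ∃ v, ∀ i, Φ i v = c i)
    (hK : InvK A K) (hker : ∀ p v, v ∈ K p ↔ ∀ i, Φ i v = 0) : IsFoliation q (ds (A := A) K) := by
  intro y
  obtain ⟨p, rfl⟩ := (pr_cov (A := A)).surjective y
  set l := ((pr_diffeo (A := A)) p).localInverse with hl
  have hsm : ∀ i, ContMDiffOn (𝓡 4) 𝓘(ℝ, ℝ) ∞ (fun z => Φ i (l z)) l.source := fun i =>
    (Φ i).contMDiff.comp_contMDiffOn l.contMDiffOn
  refine ⟨l.source, l.open_source, ((pr_diffeo (A := A)) p).localInverse_mem_source,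
    fun i z => Φ i (l z), hsm, ?_⟩
  · intro z hz
    obtain ⟨u, hu, rfl⟩ : ∃ u ∈ l.target, pr A u = z :=
      ⟨l z, l.map_source hz, ((pr_diffeo (A := A)) p).localInverse_right_inv hz⟩
    have hcomp : ∀ i, (fun w => Φ i (l (pr A w))) =ᶠ[𝓝 u] Φ i := by
      intro i
      have : l.target ∈ 𝓝 u := l.open_target.mem_nhds hu
      filter_upwards [this] with w hw
      rw [((pr_diffeo (A := A)) p).localInverse_left_inv hw]
    have hval : ∀ (i : Fin q) (w : E4),
        (mfderiv (𝓡 4) 𝓘(ℝ, ℝ) (fun z => Φ i (l z)) (pr A u)) (dpr A u w) = Φ i w := by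
      intro i w
      have hmd : MDifferentiableAt (𝓡 4) 𝓘(ℝ, ℝ) (fun z => Φ i (l z)) (pr A u) :=
        ((hsm i).contMDiffAt (l.open_source.mem_nhds hz)).mdifferentiableAt (by simp)
      have hchain := mfderiv_comp u hmd (QuotMfd.mdiffAt pr_diffeo u)
      have hchain2 : mfderiv (𝓡 4) 𝓘(ℝ, ℝ) (fun w => Φ i (l (pr A w))) u =
        (mfderiv (𝓡 4) 𝓘(ℝ, ℝ) (fun z => Φ i (l z)) (pr A u)).comp
          (mfderiv (𝓡 4) (𝓡 4) (pr A) u) := hchain
      rw [(hcomp i).mfderiv_eq, mfderiv_eq_fderiv, (Φ i).fderiv] at hchain2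
      exact (congrArg (fun L : E4 →L[ℝ] ℝ => L w) hchain2).symm
    constructor
    · intro b
      obtain ⟨w, hw⟩ := hΦ b
      exact ⟨dpr A u w, fun i => by rw [hval, hw]⟩
    · intro v
      obtain ⟨w, hw⟩ := (dpr_bij (A := A) u).2 v
      rw [ds_apply hK]
      constructor
      · rintro ⟨w', hw', hv'⟩ i
        have h1 : v = dpr A u w' := hv'.symm
        rw [h1, hval]
        exact (hker u w').1 hw' i
      · intro h0
        have h1 : v = dpr A u w := hw.symm
        refine ⟨w, (hker u w).2 fun i => ?_, hw⟩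
        have := h0 i
        rw [h1, hval] at this
        exact this

end Pool.Agent.Helper454.Bott
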