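import Mathlib

set_option autoImplicit false
open scoped Manifold ContDiff Topology

namespace Pool.Agent.Helper454.EngelDefs

variable {E H M : Type} [NormedAddCommGroup E] [NormedSpace ℝ E] [TopologicalSpace H]
  {I : ModelWithCorners ℝ E H} [TopologicalSpace M] [ChartedSpace H M] [IsManifold I ∞ M]

/-- The vector field `X` on the manifold `M` is smooth on a neighbourhood of `x`. -/
def SmoothNear (X : (y : M) → TangentSpace I y) (x : M) : Prop :=
  ∀ᶠ y in 𝓝 x, ContMDiffAt I I.tangent ∞ (fun z => (⟨z, X z⟩ : TangentBundle I M)) y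

/-- `D` is a smooth distribution of rank `k` on `M`: near every point it is spanned by `k` smooth,
pointwise linearly independent vector fields. -/
def IsDistribution (k : ℕ) (D : (x : M) → Submodule ℝ (TangentSpace I x)) : Prop :=
  ∀ x : M, ∃ X : Fin k → (y : M) → TangentSpace I y, (∀ i, SmoothNear (X i) x) ∧
    ∀ᶠ y in 𝓝 x, LinearIndependent ℝ (fun i => X i y) ∧
      D y = Submodule.span ℝ (Set.range fun i => X i y)

/-- `X` is, near `x`, a smooth section of `D`. -/
def SectionNear (D : (x : M) → Submodule ℝ (TangentSpace I x))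
    (X : (y : M) → TangentSpace I y) (x : M) : Prop :=
  SmoothNear X x ∧ ∀ᶠ y in 𝓝 x, X y ∈ D y

/-- `[D, D]`: spanned at `x` by `D x` and the Lie brackets of smooth sections of `D` near `x`. -/
noncomputable def bracketDist (D : (x : M) → Submodule ℝ (TangentSpace I x)) (x : M) :
    Submodule ℝ (TangentSpace I x) :=
  D x ⊔ Submodule.span ℝ {v | ∃ X Y : (y : M) → TangentSpace I y,
    SectionNear D X x ∧ SectionNear D Y x ∧ v = VectorField.mlieBracket I X Y x}

/-- Engel structures on a 4-manifold: `D` is a rank 2 distribution, `[D, D]` a rank 3 distribution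
and `[[D, D], [D, D]] = TM`. -/
def IsEngel (D : (x : M) → Submodule ℝ (TangentSpace I x)) : Prop :=
  IsDistribution 2 D ∧ IsDistribution 3 (bracketDist D) ∧
    ∀ x : M, bracketDist (bracketDist D) x = ⊤

/-- `T` is the tangent distribution of a smooth foliation of codimension `q`: near every point it is
the kernel of the differential of a smooth submersion `(f 0, ..., f (q-1))` to `ℝ^q`. -/
def IsFoliation (q : ℕ) (T : (x : M) → Submodule ℝ (TangentSpace I x)) : Prop :=
  ∀ x : M, ∃ U : Set M, IsOpen U ∧ x ∈ U ∧ ∃ f : Fin q → M → ℝ,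
    (∀ i, ContMDiffOn I 𝓘(ℝ, ℝ) ∞ (f i) U) ∧
    ∀ y ∈ U, (∀ c : Fin q → ℝ, ∃ v : TangentSpace I y, ∀ i, mfderiv I 𝓘(ℝ, ℝ) (f i) y v = c i) ∧
      ∀ v : TangentSpace I y, v ∈ T y ↔ ∀ i, mfderiv I 𝓘(ℝ, ℝ) (f i) y v = 0

/-- `ξ` is a leafwise contact structure for the codimension one foliation with tangent distribution
`T`: a plane field tangent to the leaves with `[ξ, ξ] = T`. -/
def IsLeafwiseContact (T ξ : (x : M) → Submodule ℝ (TangentSpace I x)) : Prop :=
  IsDistribution 2 ξ ∧ (∀ x : M, ξ x ≤ T x) ∧ ∀ x : M, bracketDist ξ x = T x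

/-- `N` is a continuous family of norms on the tangent spaces of `M`. -/
structure IsNormFamily (N : TangentBundle I M → ℝ) : Prop where
  cont : Continuous N
  pos : ∀ (x : M) (v : TangentSpace I x), v ≠ 0 → 0 < N ⟨x, v⟩
  smul : ∀ (x : M) (c : ℝ) (v : TangentSpace I x), N ⟨x, c • v⟩ = |c| * N ⟨x, v⟩
  add : ∀ (x : M) (v w : TangentSpace I x), N ⟨x, v + w⟩ ≤ N ⟨x, v⟩ + N ⟨x, w⟩

/-- `D` is uniformly `ε`-close to `D₀`, measured with the norms `N`: every vector `v` of `D x` is
within `ε ‖v‖` of `D₀ x`. -/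
def IsClose (N : TangentBundle I M → ℝ) (ε : ℝ)
    (D₀ D : (x : M) → Submodule ℝ (TangentSpace I x)) : Prop :=
  ∀ (x : M), ∀ v ∈ D x, ∃ w ∈ D₀ x, N ⟨x, v - w⟩ ≤ ε * N ⟨x, v⟩

end Pool.Agent.Helper454.EngelDefs
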