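import Pool.Agent.Helper454.Lift

set_option autoImplicit false
set_option linter.unusedSectionVars false
open scoped Manifold ContDiff Topology
open Set

namespace Pool.Agent.Helper454.Bott

/-- the model space -/
abbrev E4 := EuclideanSpace ℝ (Fin 4)

/-- sign character -/
def chi (a g : Fin 4 → ℤ) : ℤˣ := ∏ j, (-1 : ℤˣ) ^ (a j * g j)

lemma neg_one_zpow_units (s : ℤˣ) (n : ℤ) : (-1 : ℤˣ) ^ ((s : ℤ) * n) = (-1) ^ n := by
  rcases Int.units_eq_one_or s with rfl | rfl <;> simp

/-- The deck group attached to a sign matrix. -/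
def BG (_A : Fin 4 → Fin 4 → ℤ) : Type := Fin 4 → ℤ

variable {A : Fin 4 → Fin 4 → ℤ}

instance : Mul (BG A) := ⟨fun g h i => g i + chi (A i) g * h i⟩
instance : One (BG A) := ⟨fun _ => 0⟩
instance : Inv (BG A) := ⟨fun g i => -(chi (A i) g * g i)⟩

lemma mul_apply (g h : BG A) (i : Fin 4) : (g * h) i = g i + chi (A i) g * h i := rfl
lemma one_apply (i : Fin 4) : (1 : BG A) i = 0 := rfl
lemma inv_apply (g : BG A) (i : Fin 4) : (g⁻¹) i = -(chi (A i) g * g i) := rfl

lemma chi_mul (a : Fin 4 → ℤ) (g h : BG A) : chi a (g * h) = chi a g * chi a h := by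
  unfold chi
  rw [← Finset.prod_mul_distrib]
  refine Finset.prod_congr rfl fun j _ => ?_
  rw [mul_apply, mul_add, zpow_add, show a j * (((chi (A j) g : ℤˣ) : ℤ) * h j) =
    ((chi (A j) g : ℤˣ) : ℤ) * (a j * h j) by ring, neg_one_zpow_units]

lemma chi_one (a : Fin 4 → ℤ) : chi a (1 : BG A) = 1 := by
  simp [chi, one_apply]

lemma chi_inv (a : Fin 4 → ℤ) (g : BG A) : chi a (g⁻¹ : BG A) = chi a g := by
  unfold chi
  refine Finset.prod_congr rfl fun j _ => ?_
  rw [inv_apply, show a j * -(((chi (A j) g : ℤˣ) : ℤ) * g j) =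
    -(((chi (A j) g : ℤˣ) : ℤ) * (a j * g j)) by ring, zpow_neg, neg_one_zpow_units]
  exact Int.units_inv_eq_self _

instance : Group (BG A) := Group.ofLeftAxioms
  (by
    intro g h l
    funext i
    simp only [mul_apply, chi_mul, Units.val_mul]
    ring)
  (by
    intro g
    funext i
    simp [mul_apply, one_apply, chi_one])
  (by
    intro g
    funext i
    simp [mul_apply, inv_apply, one_apply, chi_inv])

/-- real sign -/
def sg (A : Fin 4 → Fin 4 → ℤ) (i : Fin 4) (g : Fin 4 → ℤ) : ℝ := ((chi (A i) g : ℤˣ) : ℤ)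

lemma sg_mul (i : Fin 4) (g h : BG A) : sg A i (g * h) = sg A i g * sg A i h := by
  simp [sg, chi_mul]

lemma sg_one (i : Fin 4) : sg A i (1 : BG A) = 1 := by simp [sg, chi_one]

lemma sg_cases (i : Fin 4) (g : Fin 4 → ℤ) : sg A i g = 1 ∨ sg A i g = -1 := by
  unfold sg
  rcases Int.units_eq_one_or (chi (A i) g) with h | h <;> rw [h] <;> simp

lemma sg_sq (i : Fin 4) (g : Fin 4 → ℤ) : sg A i g * sg A i g = 1 := by
  rcases sg_cases (A := A) i g with h | h <;> rw [h] <;> norm_num

lemma abs_sg (i : Fin 4) (g : Fin 4 → ℤ) : |sg A i g| = 1 := by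
  rcases sg_cases (A := A) i g with h | h <;> rw [h] <;> norm_num

noncomputable instance : MulAction (BG A) E4 where
  smul g p := WithLp.toLp 2 (fun i => sg A i g * p i + g i)
  one_smul p := by
    ext i
    change sg A i (1 : BG A) * p i + ((1 : BG A) i : ℤ) = p i
    rw [sg_one, one_apply]
    simp
  mul_smul g h p := by
    ext i
    change sg A i (g * h) * p i + ((g * h) i : ℤ) =
      sg A i g * (sg A i h * p i + (h i : ℤ)) + (g i : ℤ)
    rw [sg_mul, mul_apply]
    push_cast
    simp only [sg]
    ring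

lemma smul_apply (g : BG A) (p : E4) (i : Fin 4) : (g • p) i = sg A i g * p i + g i := rfl

/-- linear part of the action -/
noncomputable def lin (g : BG A) : E4 →L[ℝ] E4 :=
  LinearMap.toContinuousLinearMap
  { toFun := fun v => WithLp.toLp 2 (fun i => sg A i g * v i)
    map_add' := by
      intro v w
      ext i
      change sg A i g * (v i + w i) = sg A i g * v i + sg A i g * w i
      ring
    map_smul' := by
      intro c v
      ext i
      change sg A i g * (c * v i) = c * (sg A i g * v i)
      ring }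

lemma lin_apply (g : BG A) (v : E4) (i : Fin 4) : lin g v i = sg A i g * v i := rfl

lemma smul_eq (g : BG A) (p : E4) :
    g • p = lin g p + WithLp.toLp 2 (fun i => ((g i : ℤ) : ℝ)) := by
  ext i
  rfl

lemma hasFDerivAt_smul (g : BG A) (p : E4) : HasFDerivAt (fun p : E4 => g • p) (lin g) p := by
  have : (fun p : E4 => g • p) = fun p => lin g p + WithLp.toLp 2 (fun i => ((g i : ℤ) : ℝ)) := by
    ext1 p; exact smul_eq g p
  rw [this]
  exact (lin g).hasFDerivAt.add_const _

lemma fderiv_smul_eq (g : BG A) (p : E4) : fderiv ℝ (fun p : E4 => g • p) p = lin g :=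
  (hasFDerivAt_smul g p).fderiv

lemma contDiff_smul (g : BG A) : ContDiff ℝ ∞ (fun p : E4 => g • p) := by
  have : (fun p : E4 => g • p) = fun p => lin g p + WithLp.toLp 2 (fun i => ((g i : ℤ) : ℝ)) := by
    ext1 p; exact smul_eq g p
  rw [this]
  exact (lin g).contDiff.add contDiff_const

instance : ContinuousConstSMul (BG A) E4 := ⟨fun g => (contDiff_smul g).continuous⟩

/-- the sign matrix is strictly lower triangular -/
class LT (A : Fin 4 → Fin 4 → ℤ) : Prop where
  out : ∀ i j, i ≤ j → A i j = 0

lemma chi_congr [LT A] (i : Fin 4) (g h : Fin 4 → ℤ) (H : ∀ j, j < i → g j = h j) :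
    chi (A i) g = chi (A i) h := by
  unfold chi
  refine Finset.prod_congr rfl fun j _ => ?_
  by_cases hj : j < i
  · rw [H j hj]
  · rw [LT.out (A := A) i j (not_lt.1 hj)]; simp

instance [LT A] : IsCancelSMul (BG A) E4 where
  left_cancel' g p p' h := by
    have := congrArg (fun x => g⁻¹ • x) h
    simpa using this
  right_cancel' g h p hgh := by
    have key : ∀ n : ℕ, ∀ i : Fin 4, (i : ℕ) = n → g i = h i := by
      intro n
      induction n using Nat.strong_induction_on with
      | _ n ih =>
        intro i hi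
        have h1 := congrArg (fun x : E4 => x i) hgh
        simp only [smul_apply] at h1
        have h2 : sg A i g = sg A i h := by
          unfold sg
          rw [chi_congr i g h (fun j hj => ih j (by rw [← hi]; exact hj) j rfl)]
        rw [h2] at h1
        have h3 : ((g i : ℤ) : ℝ) = (h i : ℤ) := by linarith
        exact_mod_cast h3
    funext i
    exact key i i rfl

lemma abs_coord_le (p : E4) (i : Fin 4) : |p i| ≤ ‖p‖ := by
  have := PiLp.norm_apply_le p i
  simpa using this

instance : ProperlyDiscontinuousSMul (BG A) E4 where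
  finite_disjoint_inter_image := by
    intro K L hK hL
    obtain ⟨C1, hC1⟩ := hK.isBounded.exists_norm_le
    obtain ⟨C2, hC2⟩ := hL.isBounded.exists_norm_le
    set N : ℤ := ⌈C1 + C2⌉ with hN
    apply Set.Finite.subset (s := {g : BG A | ∀ i, -N ≤ g i ∧ g i ≤ N})
    · have h1 : (Set.Icc (fun _ => -N) (fun _ => N) : Set (Fin 4 → ℤ)).Finite := Set.finite_Icc _ _
      exact h1.subset fun g hg => ⟨fun i => (hg i).1, fun i => (hg i).2⟩
    · rintro g ⟨p', ⟨p, hp, hgp⟩, hp'⟩
      have hgp' : g • p = p' := hgp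
      have key : ∀ i, |((g i : ℤ) : ℝ)| ≤ C1 + C2 := by
        intro i
        have h0 := smul_apply g p i
        rw [hgp'] at h0
        have e : ((g i : ℤ) : ℝ) = p' i - sg A i g * p i := by rw [h0]; ring
        calc |((g i : ℤ) : ℝ)| = |p' i - sg A i g * p i| := by rw [e]
          _ ≤ |p' i| + |sg A i g * p i| := abs_sub _ _
          _ = |p' i| + |p i| := by rw [abs_mul, abs_sg, one_mul]
          _ ≤ C2 + C1 := add_le_add ((abs_coord_le p' i).trans (hC2 p' hp'))
              ((abs_coord_le p i).trans (hC1 p hp))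
          _ = C1 + C2 := by ring
      intro i
      constructor
      · have h1 := (abs_le.1 (key i)).1
        have h2 := Int.le_ceil (C1 + C2)
        have : (-(N : ℝ)) ≤ (g i : ℤ) := by rw [hN]; linarith
        exact_mod_cast this
      · have h1 := (abs_le.1 (key i)).2
        have h2 := Int.le_ceil (C1 + C2)
        have : ((g i : ℤ) : ℝ) ≤ N := by rw [hN]; linarith
        exact_mod_cast this

end Pool.Agent.Helper454.Bott
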