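import Pool.Agent.Helper454.Bott.Level
import Pool.Agent.Helper454.Bott.Grp

set_option autoImplicit false
set_option linter.unusedSectionVars false
open scoped ContDiff Topology
open Set VectorField

namespace Pool.Agent.Helper454.Bott

variable {A : Fin 4 → Fin 4 → ℤ}

lemma fderiv_equi {V : E4 → E4} (hV : Differentiable ℝ V) (g : BG A) (a : ℝ)
    (h1 : ∀ p, V (g • p) = a • lin g (V p)) (p v : E4) :
    fderiv ℝ V (g • p) (lin g v) = a • lin g (fderiv ℝ V p v) := by
  have k1 : HasFDerivAt (fun u => V (g • u)) ((fderiv ℝ V (g • p)).comp (lin g)) p :=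
    (hV (g • p)).hasFDerivAt.comp p (hasFDerivAt_smul g p)
  have k2 : HasFDerivAt (fun u => a • lin g (V u)) (a • (lin g).comp (fderiv ℝ V p)) p :=
    ((lin g).hasFDerivAt.comp p (hV p).hasFDerivAt).const_smul a
  have e : (fun u => V (g • u)) = fun u => a • lin g (V u) := by ext1 u; exact h1 u
  rw [e] at k1
  have := congrArg (fun L : E4 →L[ℝ] E4 => L v) (k1.unique k2)
  simpa using this

lemma bracket_equi {V W : E4 → E4} (hV : Differentiable ℝ V) (hW : Differentiable ℝ W)
    (g : BG A) {a b : ℝ} (h1 : ∀ p, V (g • p) = a • lin g (V p))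
    (h2 : ∀ p, W (g • p) = b • lin g (W p)) (p : E4) :
    lieBracket ℝ V W (g • p) = (a * b) • lin g (lieBracket ℝ V W p) := by
  rw [lieBracket_eq]
  simp only
  rw [h1 p, h2 p, map_smul, map_smul, fderiv_equi hV g a h1, fderiv_equi hW g b h2,
    map_sub, smul_smul, smul_smul, smul_sub, mul_comm b a]

/-- equivariance of the coframe and of the planes -/
structure Equi (K : E4 → Submodule ℝ E4) (α β ρ τ : E4 → E4 →L[ℝ] ℝ)
    (a b c d : BG A → ℝ) : Prop where
  hK : ∀ (g : BG A) (p v : E4), v ∈ K p → lin g v ∈ K (g • p)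
  hα : ∀ (g : BG A) (p v : E4), α (g • p) (lin g v) = a g * α p v
  hβ : ∀ (g : BG A) (p v : E4), β (g • p) (lin g v) = b g * β p v
  hρ : ∀ (g : BG A) (p v : E4), ρ (g • p) (lin g v) = c g * ρ p v
  hτ : ∀ (g : BG A) (p v : E4), τ (g • p) (lin g v) = d g * τ p v
  ha : ∀ g : BG A, a g * a g = 1
  hb : ∀ g : BG A, b g * b g = 1

variable {K : E4 → Submodule ℝ E4} {α β ρ τ : E4 → E4 →L[ℝ] ℝ} {X Y : E4 → E4}
  {a b c d : BG A → ℝ}

lemma Equi.X_equi (e : Equi K α β ρ τ a b c d) (h : FrameData K α β ρ τ X Y) (g : BG A)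
    (p : E4) : X (g • p) = a g • lin g (X p) := by
  have h1 := h.dec _ _ (e.hK g p _ (h.mX p))
  rw [e.hα, e.hβ, h.αX, h.βX, mul_one, mul_zero, zero_smul, add_zero] at h1
  rw [h1, smul_smul, e.ha, one_smul]

lemma Equi.Y_equi (e : Equi K α β ρ τ a b c d) (h : FrameData K α β ρ τ X Y) (g : BG A)
    (p : E4) : Y (g • p) = b g • lin g (Y p) := by
  have h1 := h.dec _ _ (e.hK g p _ (h.mY p))
  rw [e.hα, e.hβ, h.αY, h.βY, mul_one, mul_zero, zero_smul, zero_add] at h1
  rw [h1, smul_smul, e.hb, one_smul]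

lemma Equi.Z_equi (e : Equi K α β ρ τ a b c d) (h : FrameData K α β ρ τ X Y) (g : BG A)
    (p : E4) : lieBracket ℝ X Y (g • p) = (a g * b g) • lin g (lieBracket ℝ X Y p) :=
  bracket_equi (fun p => dat h.smX p) (fun p => dat h.smY p) g (e.X_equi h g) (e.Y_equi h g) p

lemma Equi.r_equi (e : Equi K α β ρ τ a b c d) (h : FrameData K α β ρ τ X Y) (g : BG A)
    (p v : E4) : red α β ρ X Y (g • p) (lin g v) = c g * red α β ρ X Y p v := by
  rw [red_apply, red_apply, e.X_equi h, e.Y_equi h]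
  simp only [map_smul, smul_eq_mul, e.hα, e.hβ, e.hρ]
  have h1 := e.ha g
  have h2 := e.hb g
  linear_combination (-(c g * ρ p (X p) * α p v)) * h1 - (c g * ρ p (Y p) * β p v) * h2

lemma Equi.s_equi (e : Equi K α β ρ τ a b c d) (h : FrameData K α β ρ τ X Y) (g : BG A)
    (p v : E4) : red α β τ X Y (g • p) (lin g v) = d g * red α β τ X Y p v := by
  rw [red_apply, red_apply, e.X_equi h, e.Y_equi h]
  simp only [map_smul, smul_eq_mul, e.hα, e.hβ, e.hτ]
  have h1 := e.ha g
  have h2 := e.hb g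
  linear_combination (-(d g * τ p (X p) * α p v)) * h1 - (d g * τ p (Y p) * β p v) * h2

lemma Equi.one_r (e : Equi K α β ρ τ a b c d) (h : FrameData K α β ρ τ X Y) (g : BG A)
    (p : E4) : red α β ρ X Y (g • p) (lieBracket ℝ X Y (g • p)) =
      a g * b g * c g * red α β ρ X Y p (lieBracket ℝ X Y p) := by
  rw [e.Z_equi h, map_smul, e.r_equi h, smul_eq_mul]; ring

lemma Equi.one_s (e : Equi K α β ρ τ a b c d) (h : FrameData K α β ρ τ X Y) (g : BG A)
    (p : E4) : red α β τ X Y (g • p) (lieBracket ℝ X Y (g • p)) =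
      a g * b g * d g * red α β τ X Y p (lieBracket ℝ X Y p) := by
  rw [e.Z_equi h, map_smul, e.s_equi h, smul_eq_mul]; ring

lemma Equi.om_equi (e : Equi K α β ρ τ a b c d) (h : FrameData K α β ρ τ X Y) (g : BG A)
    (p v : E4) : omg (red α β ρ X Y) (red α β τ X Y) (lieBracket ℝ X Y) (g • p) (lin g v) =
      a g * b g * c g * d g *
        omg (red α β ρ X Y) (red α β τ X Y) (lieBracket ℝ X Y) p v := by
  rw [omg_apply, omg_apply, e.one_r h, e.one_s h, e.r_equi h, e.s_equi h]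
  ring

lemma Equi.two_f (e : Equi K α β ρ τ a b c d) (h : FrameData K α β ρ τ X Y) (g : BG A)
    (p : E4) : omg (red α β ρ X Y) (red α β τ X Y) (lieBracket ℝ X Y) (g • p)
        (lieBracket ℝ X (lieBracket ℝ X Y) (g • p)) =
      a g * c g * d g * omg (red α β ρ X Y) (red α β τ X Y) (lieBracket ℝ X Y) p
        (lieBracket ℝ X (lieBracket ℝ X Y) p) := by
  have h1 := bracket_equi (fun p => dat h.smX p) (fun p => dat h.smZ p) g (e.X_equi h g)
    (e.Z_equi h g) p
  rw [h1, map_smul, e.om_equi h, smul_eq_mul]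
  have k1 := e.ha g
  have k2 := e.hb g
  generalize omg (red α β ρ X Y) (red α β τ X Y) (lieBracket ℝ X Y) p
        (lieBracket ℝ X (lieBracket ℝ X Y) p) = w
  linear_combination (a g * c g * d g * w * b g * b g) * k1 + (a g * c g * d g * w) * k2

lemma Equi.two_h (e : Equi K α β ρ τ a b c d) (h : FrameData K α β ρ τ X Y) (g : BG A)
    (p : E4) : omg (red α β ρ X Y) (red α β τ X Y) (lieBracket ℝ X Y) (g • p)
        (lieBracket ℝ Y (lieBracket ℝ X Y) (g • p)) =
      b g * c g * d g * omg (red α β ρ X Y) (red α β τ X Y) (lieBracket ℝ X Y) p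
        (lieBracket ℝ Y (lieBracket ℝ X Y) p) := by
  have h1 := bracket_equi (fun p => dat h.smY p) (fun p => dat h.smZ p) g (e.Y_equi h g)
    (e.Z_equi h g) p
  rw [h1, map_smul, e.om_equi h, smul_eq_mul]
  have k1 := e.ha g
  have k2 := e.hb g
  generalize omg (red α β ρ X Y) (red α β τ X Y) (lieBracket ℝ X Y) p
        (lieBracket ℝ Y (lieBracket ℝ X Y) p) = w
  linear_combination (b g * c g * d g * w * b g * b g) * k1 + (b g * c g * d g * w) * k2

end Pool.Agent.Helper454.Bott
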