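import Mathlib

set_option autoImplicit false
set_option linter.unusedSectionVars false
open Set

namespace Pool.Agent.Helper454.Bott

/-- continuous logarithms on the plane -/
lemma exists_log {U : ℝ × ℝ → ℂ} (hU : Continuous U) (h0 : ∀ p, U p ≠ 0) :
    ∃ w : ℝ × ℝ → ℂ, Continuous w ∧ ∀ p, Complex.exp (w p) = U p := by
  obtain ⟨w, ⟨_, hw⟩, _⟩ := Complex.isCoveringMapOn_exp.existsUnique_continuousMap_lifts
    (⟨U, hU⟩ : C(ℝ × ℝ, ℂ)) (a₀ := (0, 0)) (e₀ := Complex.log (U (0, 0)))
    (Complex.exp_log (h0 _)) (fun p => h0 p)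
  exact ⟨w, w.continuous, fun p => congrFun hw p⟩

/-- a continuous function on the plane with values in integer multiples of a nonzero number is
constant -/
lemma const_of_int {f : ℝ × ℝ → ℂ} (hf : Continuous f)
    (h : ∀ p, ∃ n : ℤ, f p = n * (2 * Real.pi * Complex.I)) :
    ∃ n : ℤ, ∀ p, f p = n * (2 * Real.pi * Complex.I) := by
  choose n hn using h
  have hne : (2 * Real.pi * Complex.I : ℂ) ≠ 0 := Complex.two_pi_I_ne_zero
  have hcont : Continuous fun p => ((n p : ℤ) : ℝ) := by
    have h1 : (fun p => ((n p : ℤ) : ℝ)) = fun p => (f p / (2 * Real.pi * Complex.I)).re := by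
      ext p
      rw [hn p, mul_div_assoc, div_self hne, mul_one]
      simp
    rw [h1]
    exact Complex.continuous_re.comp (hf.div_const _)
  have hcont2 : Continuous n := by
    rw [Int.isClosedEmbedding_coe_real.isEmbedding.continuous_iff]
    exact hcont
  have : ∀ p, n p = n (0, 0) := fun p => PreconnectedSpace.constant inferInstance hcont2
  exact ⟨n (0, 0), fun p => by rw [hn p, this p]⟩

lemma exists_int_of_exp_eq {f : ℝ × ℝ → ℂ} {g : ℝ × ℝ → ℂ} (hf : Continuous f)
    (hg : Continuous g) (h : ∀ p, Complex.exp (f p) = Complex.exp (g p)) :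
    ∃ n : ℤ, ∀ p, f p = g p + n * (2 * Real.pi * Complex.I) := by
  obtain ⟨n, hn⟩ := const_of_int (f := fun p => f p - g p) (hf.sub hg) (fun p => by
    obtain ⟨n, hn⟩ := Complex.exp_eq_exp_iff_exists_int.1 (h p)
    exact ⟨n, by rw [hn]; ring⟩)
  exact ⟨n, fun p => by rw [← hn p]; ring⟩

lemma int_contra {n : ℤ} (h : ((2 * n + 1 : ℤ) : ℂ) * (2 * Real.pi * Complex.I) = 0) : False := by
  rcases mul_eq_zero.1 h with h | h
  · have : (2 * n + 1 : ℤ) = 0 := by exact_mod_cast h
    omega
  · exact Complex.two_pi_I_ne_zero h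

/-- First Klein bottle obstruction. -/
theorem klein_one (U : ℝ × ℝ → ℂ) (hU : Continuous U) (h0 : ∀ p, U p ≠ 0)
    (h1 : ∀ x y, U (x + 1, -y) = (starRingEnd ℂ) (U (x, y)))
    (h2 : ∀ x y, U (x, y + 1) = -(starRingEnd ℂ) (U (x, y))) : False := by
  obtain ⟨w, hw, hwU⟩ := exists_log hU h0
  have hπ : Complex.exp (Real.pi * Complex.I) = -1 := Complex.exp_pi_mul_I
  obtain ⟨j, hj⟩ := exists_int_of_exp_eq (f := fun p => w (p.1 + 1, -p.2))
    (g := fun p => (starRingEnd ℂ) (w p)) (by fun_prop)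
    (Complex.continuous_conj.comp hw) (fun p => by
      rw [hwU, h1, ← hwU, Complex.exp_conj])
  obtain ⟨k, hk⟩ := exists_int_of_exp_eq (f := fun p => w (p.1, p.2 + 1))
    (g := fun p => (starRingEnd ℂ) (w p) + Real.pi * Complex.I) (by fun_prop)
    ((Complex.continuous_conj.comp hw).add continuous_const) (fun p => by
      rw [hwU, h2, ← hwU, Complex.exp_add, hπ, Complex.exp_conj]; ring)
  -- compare two ways of reaching the same point
  have e1 := hj (0, 0)
  have e2 := hj (0, 1)
  have e3 := hk (1, -1)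
  have e4 := hk (0, 0)
  simp only [zero_add, neg_zero, neg_add_cancel] at e1 e2 e3 e4
  rw [e4] at e2
  rw [e2] at e3
  rw [e3] at e1
  simp only [map_add, map_mul, map_neg, Complex.conj_conj, Complex.conj_ofReal, Complex.conj_I,
    map_ofNat, map_intCast] at e1
  apply int_contra (n := k - j)
  push_cast
  linear_combination e1

/-- Second Klein bottle obstruction. -/
theorem klein_two (U : ℝ × ℝ → ℂ) (hU : Continuous U) (h0 : ∀ p, U p ≠ 0)
    (h1 : ∀ x y, U (x + 1, -y) = -U (x, y))
    (h2 : ∀ x y, U (x, y + 1) = -(starRingEnd ℂ) (U (x, y))) : False := by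
  obtain ⟨w, hw, hwU⟩ := exists_log hU h0
  have hπ : Complex.exp (Real.pi * Complex.I) = -1 := Complex.exp_pi_mul_I
  obtain ⟨j, hj⟩ := exists_int_of_exp_eq (f := fun p => w (p.1 + 1, -p.2))
    (g := fun p => w p + Real.pi * Complex.I) (by fun_prop)
    (hw.add continuous_const) (fun p => by
      rw [hwU, h1, ← hwU, Complex.exp_add, hπ]; ring)
  obtain ⟨k, hk⟩ := exists_int_of_exp_eq (f := fun p => w (p.1, p.2 + 1))
    (g := fun p => (starRingEnd ℂ) (w p) + Real.pi * Complex.I) (by fun_prop)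
    ((Complex.continuous_conj.comp hw).add continuous_const) (fun p => by
      rw [hwU, h2, ← hwU, Complex.exp_add, hπ, Complex.exp_conj]; ring)
  have e1 := hj (0, 0)
  have e2 := hj (0, 1)
  have e3 := hk (1, -1)
  have e4 := hk (0, 0)
  simp only [zero_add, neg_zero, neg_add_cancel] at e1 e2 e3 e4
  rw [e4] at e2
  rw [e2] at e3
  rw [e3] at e1
  simp only [map_add, map_mul, Complex.conj_conj, Complex.conj_ofReal, Complex.conj_I,
    map_ofNat, map_intCast] at e1
  apply int_contra (n := j)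
  push_cast
  linear_combination (-1 : ℂ) * e1

end Pool.Agent.Helper454.Bott
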