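import Pool.Agent.Helper454.Bott.Near
import Pool.Agent.Helper454.Bott.Topo

set_option autoImplicit false
set_option linter.unusedSectionVars false
open scoped Manifold ContDiff Topology
open Set VectorField Real Pool.Agent.Helper454.EngelDefs

namespace Pool.Agent.Helper454.Bott.ExOne

open Pool.Agent.Helper454.Bott

/-- sign matrix of the example -/
def A : Fin 4 → Fin 4 → ℤ := ![![0, 0, 0, 0], ![1, 0, 0, 0], ![1, 0, 0, 0], ![0, 0, 0, 0]]

instance : LT A := ⟨by decide⟩

/-- sign -/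
noncomputable def sgm (g : BG A) : ℝ := (-1 : ℝ) ^ (g 0)
/-- sign -/
noncomputable def kap (g : BG A) : ℝ := (-1 : ℝ) ^ (g 2)

lemma zpow_cases (m : ℤ) : (-1 : ℝ) ^ m = 1 ∨ (-1 : ℝ) ^ m = -1 := by
  rcases Int.even_or_odd m with h | h
  · left; exact h.neg_one_zpow
  · right; exact h.neg_one_zpow

lemma sgm_sq (g : BG A) : sgm g * sgm g = 1 := by
  unfold sgm; rcases zpow_cases (g 0) with h | h <;> rw [h] <;> norm_num
lemma kap_sq (g : BG A) : kap g * kap g = 1 := by
  unfold kap; rcases zpow_cases (g 2) with h | h <;> rw [h] <;> norm_num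

lemma units_cast (m : ℤ) : ((((-1 : ℤˣ) ^ m : ℤˣ) : ℤ) : ℝ) = (-1 : ℝ) ^ m := by
  rcases Int.even_or_odd' m with ⟨j, rfl | rfl⟩
  · rw [zpow_mul, zpow_mul]; norm_num
  · rw [zpow_add, zpow_mul, zpow_add₀ (by norm_num), zpow_mul]; norm_num

lemma sg0 (g : BG A) : sg A 0 g = 1 := by
  simp [sg, chi, A, Fin.prod_univ_four]
lemma sg1 (g : BG A) : sg A 1 g = sgm g := by
  simp [sg, chi, A, sgm, Fin.prod_univ_four, ← units_cast]
lemma sg2 (g : BG A) : sg A 2 g = sgm g := by
  simp [sg, chi, A, sgm, Fin.prod_univ_four, ← units_cast]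
lemma sg3 (g : BG A) : sg A 3 g = 1 := by
  simp [sg, chi, A, Fin.prod_univ_four]

lemma cosz (g : BG A) (p : E4) : cos (π * (g • p) 2) = kap g * cos (π * p 2) := by
  rw [smul_apply, sg2, kap, mul_add, mul_comm π ((g 2 : ℤ) : ℝ), cos_add_int_mul_pi]
  congr 1
  unfold sgm
  rcases zpow_cases (g 0) with h | h <;> rw [h] <;> simp

lemma sinz (g : BG A) (p : E4) : sin (π * (g • p) 2) = sgm g * kap g * sin (π * p 2) := by
  rw [smul_apply, sg2, kap, mul_add, mul_comm π ((g 2 : ℤ) : ℝ), sin_add_int_mul_pi]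
  unfold sgm
  rcases zpow_cases (g 0) with h | h <;> rw [h] <;> simp

/-- coordinate projection -/
noncomputable abbrev prj (i : Fin 4) : E4 →L[ℝ] ℝ := EuclideanSpace.proj i

lemma cd_coord (i : Fin 4) : ContDiff ℝ ∞ (fun q : E4 => q i) := (prj i).contDiff
lemma cd_cos : ContDiff ℝ ∞ (fun q : E4 => cos (π * q 2)) :=
  Real.contDiff_cos.comp (contDiff_const.mul (cd_coord 2))
lemma cd_sin : ContDiff ℝ ∞ (fun q : E4 => sin (π * q 2)) :=
  Real.contDiff_sin.comp (contDiff_const.mul (cd_coord 2))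

/-- coframe -/
noncomputable def al (_p : E4) : E4 →L[ℝ] ℝ := prj 2
/-- coframe -/
noncomputable def be (p : E4) : E4 →L[ℝ] ℝ := (-sin (π * p 2)) • prj 0 + cos (π * p 2) • prj 1
/-- coframe -/
noncomputable def rh (p : E4) : E4 →L[ℝ] ℝ := cos (π * p 2) • prj 0 + sin (π * p 2) • prj 1
/-- coframe -/
noncomputable def ta (_p : E4) : E4 →L[ℝ] ℝ := prj 3

lemma al_apply (p v : E4) : al p v = v 2 := rfl
lemma be_apply (p v : E4) : be p v = -sin (π * p 2) * v 0 + cos (π * p 2) * v 1 := by simp [be]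
lemma rh_apply (p v : E4) : rh p v = cos (π * p 2) * v 0 + sin (π * p 2) * v 1 := by simp [rh]
lemma ta_apply (p v : E4) : ta p v = v 3 := rfl

lemma sm_al : ContDiff ℝ ∞ al := contDiff_const
lemma sm_ta : ContDiff ℝ ∞ ta := contDiff_const
lemma sm_be : ContDiff ℝ ∞ be := (cd_sin.neg.smul contDiff_const).add (cd_cos.smul contDiff_const)
lemma sm_rh : ContDiff ℝ ∞ rh := (cd_cos.smul contDiff_const).add (cd_sin.smul contDiff_const)

lemma al_equi (g : BG A) (p v : E4) : al (g • p) (lin g v) = sgm g * al p v := by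
  rw [al_apply, al_apply, lin_apply, sg2]
lemma be_equi (g : BG A) (p v : E4) : be (g • p) (lin g v) = sgm g * kap g * be p v := by
  rw [be_apply, be_apply, cosz, sinz, lin_apply, lin_apply, sg0, sg1]; ring
lemma rh_equi (g : BG A) (p v : E4) : rh (g • p) (lin g v) = kap g * rh p v := by
  rw [rh_apply, rh_apply, cosz, sinz, lin_apply, lin_apply, sg0, sg1]
  have := sgm_sq g
  linear_combination (kap g * sin (π * p 2) * v 1) * this
lemma ta_equi (g : BG A) (p v : E4) : ta (g • p) (lin g v) = 1 * ta p v := by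
  rw [ta_apply, ta_apply, lin_apply, sg3]

lemma E4_ext {p q : E4} (h0 : p 0 = q 0) (h1 : p 1 = q 1) (h2 : p 2 = q 2) (h3 : p 3 = q 3) :
    p = q := by
  ext i
  fin_cases i
  · exact h0
  · exact h1
  · exact h2
  · exact h3

lemma cs1 (x : ℝ) : sin x ^ 2 = 1 - cos x ^ 2 := by
  have := sin_sq_add_cos_sq x; linarith

lemma co_inj (p v : E4) (h1 : al p v = 0) (h2 : be p v = 0) (h3 : rh p v = 0)
    (h4 : ta p v = 0) : v = 0 := by
  rw [al_apply] at h1
  rw [be_apply] at h2
  rw [rh_apply] at h3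
  rw [ta_apply] at h4
  have hs := cs1 (π * p 2)
  apply E4_ext
  · change v 0 = 0
    linear_combination cos (π * p 2) * h3 - sin (π * p 2) * h2 - (v 0) * hs
  · change v 1 = 0
    linear_combination sin (π * p 2) * h3 + cos (π * p 2) * h2 - (v 1) * hs
  · exact h1
  · exact h4

/-- frame -/
noncomputable def fA (_p : E4) : E4 := EuclideanSpace.single 2 1
/-- frame -/
noncomputable def fB (p : E4) : E4 :=
  (-sin (π * p 2)) • EuclideanSpace.single 0 1 + cos (π * p 2) • EuclideanSpace.single 1 1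
/-- frame -/
noncomputable def fR (p : E4) : E4 :=
  cos (π * p 2) • EuclideanSpace.single 0 1 + sin (π * p 2) • EuclideanSpace.single 1 1
/-- frame -/
noncomputable def fT (_p : E4) : E4 := EuclideanSpace.single 3 1

lemma sm_fA : ContDiff ℝ ∞ fA := contDiff_const
lemma sm_fB : ContDiff ℝ ∞ fB := (cd_sin.neg.smul contDiff_const).add (cd_cos.smul contDiff_const)
lemma sm_fR : ContDiff ℝ ∞ fR := (cd_cos.smul contDiff_const).add (cd_sin.smul contDiff_const)

lemma fA_0 (p : E4) : fA p 0 = 0 := by simp [fA]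
lemma fA_1 (p : E4) : fA p 1 = 0 := by simp [fA]
lemma fA_2 (p : E4) : fA p 2 = 1 := by simp [fA]
lemma fA_3 (p : E4) : fA p 3 = 0 := by simp [fA]
lemma fB_0 (p : E4) : fB p 0 = -sin (π * p 2) := by simp [fB]
lemma fB_1 (p : E4) : fB p 1 = cos (π * p 2) := by simp [fB]
lemma fB_2 (p : E4) : fB p 2 = 0 := by simp [fB]
lemma fB_3 (p : E4) : fB p 3 = 0 := by simp [fB]
lemma fR_0 (p : E4) : fR p 0 = cos (π * p 2) := by simp [fR]
lemma fR_1 (p : E4) : fR p 1 = sin (π * p 2) := by simp [fR]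
lemma fR_2 (p : E4) : fR p 2 = 0 := by simp [fR]
lemma fR_3 (p : E4) : fR p 3 = 0 := by simp [fR]
lemma fT_0 (p : E4) : fT p 0 = 0 := by simp [fT]
lemma fT_1 (p : E4) : fT p 1 = 0 := by simp [fT]
lemma fT_2 (p : E4) : fT p 2 = 0 := by simp [fT]
lemma fT_3 (p : E4) : fT p 3 = 1 := by simp [fT]

lemma dual (p : E4) : ∃ R T : E4, al p R = 0 ∧ be p R = 0 ∧ rh p R = 1 ∧ ta p R = 0 ∧
    al p T = 0 ∧ be p T = 0 ∧ rh p T = 0 ∧ ta p T = 1 := by
  have hs := cs1 (π * p 2)
  refine ⟨fR p, fT p, ?_, ?_, ?_, ?_, ?_, ?_, ?_, ?_⟩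
  · rw [al_apply, fR_2]
  · rw [be_apply, fR_0, fR_1]; ring
  · rw [rh_apply, fR_0, fR_1]; linear_combination hs
  · rw [ta_apply, fR_3]
  · rw [al_apply, fT_2]
  · rw [be_apply, fT_0, fT_1]; ring
  · rw [rh_apply, fT_0, fT_1]; ring
  · rw [ta_apply, fT_3]

/-- the contact planes -/
noncomputable def Kx (p : E4) : Submodule ℝ E4 :=
  Submodule.span ℝ (Set.range fun i : Fin 2 => (![fA, fB] : Fin 2 → E4 → E4) i p)

/-- the leaves -/
noncomputable def Kt (_p : E4) : Submodule ℝ E4 := LinearMap.ker (prj 3 : E4 →ₗ[ℝ] ℝ)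

/-- first line field -/
noncomputable def Ka (p : E4) : Submodule ℝ E4 :=
  Submodule.span ℝ (Set.range fun i : Fin 1 => (![fA] : Fin 1 → E4 → E4) i p)
/-- second line field -/
noncomputable def Kb (p : E4) : Submodule ℝ E4 :=
  Submodule.span ℝ (Set.range fun i : Fin 1 => (![fB] : Fin 1 → E4 → E4) i p)

lemma mem_Kx {p v : E4} : v ∈ Kx p ↔ rh p v = 0 ∧ ta p v = 0 := by
  have hs := cs1 (π * p 2)
  constructor
  · intro h
    have hle : Kx p ≤ LinearMap.ker (rh p : E4 →ₗ[ℝ] ℝ) ⊓ LinearMap.ker (ta p : E4 →ₗ[ℝ] ℝ) := by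
      unfold Kx
      rw [Submodule.span_le]
      rintro w ⟨i, rfl⟩
      fin_cases i
      · refine ⟨?_, ?_⟩
        · change rh p (fA p) = 0
          rw [rh_apply, fA_0, fA_1]; ring
        · change ta p (fA p) = 0
          rw [ta_apply, fA_3]
      · refine ⟨?_, ?_⟩
        · change rh p (fB p) = 0
          rw [rh_apply, fB_0, fB_1]; ring
        · change ta p (fB p) = 0
          rw [ta_apply, fB_3]
    exact hle h
  · rintro ⟨h1, h2⟩
    have e : v = al p v • fA p + be p v • fB p := by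
      rw [rh_apply] at h1
      rw [ta_apply] at h2
      apply E4_ext
      · simp only [PiLp.add_apply, PiLp.smul_apply, smul_eq_mul, fA_0, fB_0, al_apply, be_apply]
        linear_combination cos (π * p 2) * h1 - (v 0) * hs
      · simp only [PiLp.add_apply, PiLp.smul_apply, smul_eq_mul, fA_1, fB_1, al_apply, be_apply]
        linear_combination sin (π * p 2) * h1 - (v 1) * hs
      · simp only [PiLp.add_apply, PiLp.smul_apply, smul_eq_mul, fA_2, fB_2, al_apply, be_apply]
        ring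
      · simp only [PiLp.add_apply, PiLp.smul_apply, smul_eq_mul, fA_3, fB_3, al_apply, be_apply]
        rw [h2]; ring
    rw [e]
    unfold Kx
    exact Submodule.add_mem _ (Submodule.smul_mem _ _ (Submodule.subset_span ⟨0, rfl⟩))
      (Submodule.smul_mem _ _ (Submodule.subset_span ⟨1, rfl⟩))

lemma mem_Kt {p v : E4} : v ∈ Kt p ↔ v 3 = 0 := Iff.rfl

lemma inv_Kx : InvK A Kx := by
  intro g p v hv
  rw [mem_Kx] at hv ⊢
  rw [rh_equi, ta_equi, hv.1, hv.2]
  simp

lemma inv_Kt : InvK A Kt := by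
  intro g p v hv
  rw [mem_Kt] at hv ⊢
  rw [lin_apply, hv]; ring

lemma lin_fA (g : BG A) (p : E4) : lin g (fA p) = sgm g • fA (g • p) := by
  apply E4_ext
  · rw [lin_apply, PiLp.smul_apply, fA_0, fA_0]; simp
  · rw [lin_apply, PiLp.smul_apply, fA_1, fA_1]; simp
  · rw [lin_apply, PiLp.smul_apply, fA_2, fA_2, sg2]; simp
  · rw [lin_apply, PiLp.smul_apply, fA_3, fA_3]; simp

lemma lin_fB (g : BG A) (p : E4) : lin g (fB p) = (sgm g * kap g) • fB (g • p) := by
  have h1 := sgm_sq g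
  have h2 := kap_sq g
  apply E4_ext
  · rw [lin_apply, PiLp.smul_apply, fB_0, fB_0, sinz, sg0, smul_eq_mul]
    linear_combination (sin (π * p 2) * kap g * kap g) * h1 + (sin (π * p 2)) * h2
  · rw [lin_apply, PiLp.smul_apply, fB_1, fB_1, cosz, sg1, smul_eq_mul]
    linear_combination (-(sgm g * cos (π * p 2))) * h2
  · rw [lin_apply, PiLp.smul_apply, fB_2, fB_2]; simp
  · rw [lin_apply, PiLp.smul_apply, fB_3, fB_3]; simp

lemma inv_Ka : InvK A Ka := by
  intro g p v hv
  have hle : Ka p ≤ (Ka (g • p)).comap (lin g : E4 →ₗ[ℝ] E4) := by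
    conv_lhs => unfold Ka
    rw [Submodule.span_le]
    rintro w ⟨i, rfl⟩
    fin_cases i
    change lin g (fA p) ∈ Ka (g • p)
    rw [lin_fA]
    exact Submodule.smul_mem _ _ (Submodule.subset_span ⟨0, rfl⟩)
  exact hle hv

lemma inv_Kb : InvK A Kb := by
  intro g p v hv
  have hle : Kb p ≤ (Kb (g • p)).comap (lin g : E4 →ₗ[ℝ] E4) := by
    conv_lhs => unfold Kb
    rw [Submodule.span_le]
    rintro w ⟨i, rfl⟩
    fin_cases i
    change lin g (fB p) ∈ Kb (g • p)
    rw [lin_fB]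
    exact Submodule.smul_mem _ _ (Submodule.subset_span ⟨0, rfl⟩)
  exact hle hv

lemma fA_ne (p : E4) : fA p ≠ 0 := by
  intro h
  have := congrArg (fun v : E4 => v 2) h
  simp only [fA_2] at this
  exact one_ne_zero this

lemma fB_ne (p : E4) : fB p ≠ 0 := by
  intro h
  have h0 := congrArg (fun v : E4 => v 0) h
  have h1 := congrArg (fun v : E4 => v 1) h
  simp only [fB_0, fB_1, PiLp.zero_apply] at h0 h1
  have := sin_sq_add_cos_sq (π * p 2)
  rw [h1] at this
  have h2 : sin (π * p 2) = 0 := by linarith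
  rw [h2] at this
  norm_num at this

lemma indep_AB (p : E4) : LinearIndependent ℝ
    (fun i : Fin 2 => (![fA, fB] : Fin 2 → E4 → E4) i p) := by
  rw [Fintype.linearIndependent_iff]
  intro c hc
  rw [Fin.sum_univ_two] at hc
  simp only [Matrix.cons_val_zero, Matrix.cons_val_one] at hc
  have e0 := congrArg (fun v : E4 => v 0) hc
  have e1 := congrArg (fun v : E4 => v 1) hc
  have e2 := congrArg (fun v : E4 => v 2) hc
  simp only [PiLp.add_apply, PiLp.smul_apply, smul_eq_mul, fA_0, fA_1, fA_2, fB_0, fB_1, fB_2,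
    PiLp.zero_apply] at e0 e1 e2
  have hs := cs1 (π * p 2)
  have c0 : c 0 = 0 := by linarith
  have c1 : c 1 = 0 := by
    linear_combination cos (π * p 2) * e1 - sin (π * p 2) * e0 - (c 1) * hs
  intro i
  fin_cases i
  · exact c0
  · exact c1

lemma dist_x : IsDistribution 2 (ds (A := A) Kx) := by
  apply ds_dist inv_Kx ![fA, fB]
  · intro i
    fin_cases i
    · exact sm_fA
    · exact sm_fB
  · exact indep_AB
  · intro p; rfl

lemma dist_a : IsDistribution 1 (ds (A := A) Ka) := by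
  apply ds_dist inv_Ka ![fA]
  · intro i
    fin_cases i
    exact sm_fA
  · intro p
    rw [linearIndependent_unique_iff]
    exact fA_ne p
  · intro p; rfl

lemma dist_b : IsDistribution 1 (ds (A := A) Kb) := by
  apply ds_dist inv_Kb ![fB]
  · intro i
    fin_cases i
    exact sm_fB
  · intro p
    rw [linearIndependent_unique_iff]
    exact fB_ne p
  · intro p; rfl

lemma K_sup (p : E4) : Kx p = Ka p ⊔ Kb p := by
  apply le_antisymm
  · unfold Kx
    rw [Submodule.span_le]
    rintro w ⟨i, rfl⟩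
    fin_cases i
    · exact Submodule.mem_sup_left (Submodule.subset_span ⟨0, rfl⟩)
    · exact Submodule.mem_sup_right (Submodule.subset_span ⟨0, rfl⟩)
  · apply sup_le
    · unfold Ka
      rw [Submodule.span_le]
      rintro w ⟨i, rfl⟩
      fin_cases i
      exact Submodule.subset_span ⟨0, rfl⟩
    · unfold Kb
      rw [Submodule.span_le]
      rintro w ⟨i, rfl⟩
      fin_cases i
      exact Submodule.subset_span ⟨1, rfl⟩

lemma split (x : BM A) : ds Kx x = ds Ka x ⊔ ds Kb x := by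
  obtain ⟨p, rfl⟩ := (pr_cov (A := A)).surjective x
  rw [ds_apply inv_Kx, ds_apply inv_Ka, ds_apply inv_Kb, K_sup, Submodule.map_sup]
  rfl

lemma foliation_t : IsFoliation 1 (ds (A := A) Kt) := by
  apply ds_foliation (q := 1) (fun _ => prj 3) _ inv_Kt
  · intro p v
    rw [mem_Kt]
    simp
  · intro c
    refine ⟨EuclideanSpace.single 3 (c 0), fun i => ?_⟩
    fin_cases i
    simp

end Pool.Agent.Helper454.Bott.ExOne
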