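import Pool.Agent.Helper454.Bott.ExOne

set_option autoImplicit false
set_option linter.unusedSectionVars false
open scoped Manifold ContDiff Topology
open Set VectorField Real Pool.Agent.Helper454.EngelDefs

namespace Pool.Agent.Helper454.Bott.ExOne

open Pool.Agent.Helper454.Bott

lemma bracket_AB (p : E4) : lieBracket ℝ fA fB p = (-π) • fR p := by
  have h2 : HasFDerivAt (fun q : E4 => π * q 2) (π • prj 2) p :=
    ((prj 2).hasFDerivAt).const_mul π
  have hB : HasFDerivAt fB _ p :=
    ((h2.sin.neg).smul_const (EuclideanSpace.single (0 : Fin 4) (1 : ℝ))).add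
      (h2.cos.smul_const (EuclideanSpace.single (1 : Fin 4) (1 : ℝ)))
  have hA : HasFDerivAt fA (0 : E4 →L[ℝ] E4) p := hasFDerivAt_const _ _
  rw [lieBracket_eq]
  simp only
  rw [hB.fderiv, hA.fderiv]
  have e2 : (prj 2) (fA p) = 1 := fA_2 p
  apply E4_ext
  · simp [fR_0, e2]; ring
  · simp [fR_1, e2]; ring
  · simp [fR_2]
  · simp [fR_3]

lemma fderiv_ta (p : E4) : fderiv ℝ ta p = 0 := by
  have : HasFDerivAt ta (0 : E4 →L[ℝ] E4 →L[ℝ] ℝ) p := hasFDerivAt_const _ _
  exact this.fderiv

lemma lf_bracket (p : E4) : lf (bracketDist (ds (A := A) Kx)) p = Kt p := by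
  apply le_antisymm
  · apply lf_closed p
    · rw [lf_ds inv_Kx]
      intro v hv
      exact (mem_Kx.1 hv).2
    · intro V W hV hW hVK hWK
      have h1 := form_bracket (θ := ta) (p := p) (sm_ta.differentiable (by simp) p) hV hW
        (hVK.mono fun q hq => by
          rw [lf_ds inv_Kx] at hq
          exact (mem_Kx.1 hq).2)
        (hWK.mono fun q hq => by
          rw [lf_ds inv_Kx] at hq
          exact (mem_Kx.1 hq).2)
      rw [fderiv_ta] at h1
      simp only [zero_apply, sub_zero] at h1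
      exact h1
  · intro v hv
    have hA : fA p ∈ lf (bracketDist (ds (A := A) Kx)) p :=
      le_lf_bracket inv_Kx p (Submodule.subset_span ⟨0, rfl⟩)
    have hB : fB p ∈ lf (bracketDist (ds (A := A) Kx)) p :=
      le_lf_bracket inv_Kx p (Submodule.subset_span ⟨1, rfl⟩)
    have hR : lieBracket ℝ fA fB p ∈ lf (bracketDist (ds (A := A) Kx)) p :=
      bracket_mem inv_Kx sm_fA sm_fB (fun q => Submodule.subset_span ⟨0, rfl⟩)
        (fun q => Submodule.subset_span ⟨1, rfl⟩) p
    rw [bracket_AB] at hR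
    rw [mem_Kt] at hv
    have hs := cs1 (π * p 2)
    have e : v = al p v • fA p + be p v • fB p + (-(rh p v) / π) • ((-π) • fR p) := by
      rw [smul_smul, show (-(rh p v) / π) * (-π) = rh p v by field_simp [Real.pi_ne_zero]]
      apply E4_ext
      · simp only [PiLp.add_apply, PiLp.smul_apply, smul_eq_mul, fA_0, fB_0, fR_0, al_apply,
          be_apply, rh_apply]
        linear_combination -(v 0) * hs
      · simp only [PiLp.add_apply, PiLp.smul_apply, smul_eq_mul, fA_1, fB_1, fR_1, al_apply,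
          be_apply, rh_apply]
        linear_combination -(v 1) * hs
      · simp only [PiLp.add_apply, PiLp.smul_apply, smul_eq_mul, fA_2, fB_2, fR_2, al_apply,
          be_apply, rh_apply]
        ring
      · simp only [PiLp.add_apply, PiLp.smul_apply, smul_eq_mul, fA_3, fB_3, fR_3, al_apply,
          be_apply, rh_apply]
        rw [hv]; ring
    rw [e]
    exact Submodule.add_mem _ (Submodule.add_mem _ (Submodule.smul_mem _ _ hA)
      (Submodule.smul_mem _ _ hB)) (Submodule.smul_mem _ _ hR)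

lemma contact : IsLeafwiseContact (ds (A := A) Kt) (ds (A := A) Kx) := by
  refine ⟨dist_x, ?_, ?_⟩
  · intro x
    obtain ⟨p, rfl⟩ := (pr_cov (A := A)).surjective x
    rw [ds_apply inv_Kx, ds_apply inv_Kt]
    exact Submodule.map_mono fun v hv => (mem_Kx.1 hv).2
  · intro x
    apply eq_of_lf
    intro p
    rw [lf_bracket, lf_ds inv_Kt]

/-- the slice -/
noncomputable def P (x : ℝ × ℝ) : E4 := !₂[x.1, 0, x.2, 0]

lemma P_cont : Continuous P := by
  apply Continuous.comp (PiLp.continuous_toLp 2 _)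
  refine continuous_pi fun i => ?_
  fin_cases i <;> simp <;> fun_prop

/-- generators -/
def g1 : BG A := fun i => if i = 0 then 1 else 0
/-- generators -/
def g2 : BG A := fun i => if i = 2 then 1 else 0

lemma sgm_g1 : sgm g1 = -1 := by simp [sgm, g1]
lemma kap_g1 : kap g1 = 1 := by simp [kap, g1]
lemma sgm_g2 : sgm g2 = 1 := by simp [sgm, g2]
lemma kap_g2 : kap g2 = -1 := by simp [kap, g2]

lemma P_g1 (x y : ℝ) : P (x + 1, -y) = g1 • P (x, y) := by
  apply E4_ext
  · rw [smul_apply, sg0]; simp [P, g1]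
  · rw [smul_apply, sg1]; simp [P, g1]
  · rw [smul_apply, sg2, sgm_g1]; simp [P, g1]
  · rw [smul_apply, sg3]; simp [P, g1]

lemma P_g2 (x y : ℝ) : P (x, y + 1) = g2 • P (x, y) := by
  apply E4_ext
  · rw [smul_apply, sg0]; simp [P, g2]
  · rw [smul_apply, sg1]; simp [P, g2]
  · rw [smul_apply, sg2, sgm_g2]; simp [P, g2]
  · rw [smul_apply, sg3]; simp [P, g2]

theorem no_engel (D : (x : BM A) → Submodule ℝ (TangentSpace (𝓡 4) x)) (hD : IsEngel D)
    (htr : ∀ p v : E4, v ∈ lf D p → al p v = 0 → be p v = 0 → v = 0) : False := by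
  obtain ⟨hD1, hD2, hD3⟩ := hD
  have hpd : PlaneData (lf D) al be := by
    refine ⟨sm_al, sm_be, fun p => ?_, htr⟩
    obtain ⟨X, hX, hXD⟩ := lf_frame hD1 p
    refine ⟨X 0, X 1, (hX 0).self_of_nhds, (hX 1).self_of_nhds, ?_, ?_⟩
    · filter_upwards [hXD] with q hq
      rw [hq.2]
      congr 1
      ext w
      simp [Fin.exists_fin_two, eq_comm]
    · have h1 := hXD.self_of_nhds.1
      have e : (![X 0 p, X 1 p] : Fin 2 → E4) = fun i => X i p := by
        funext i; fin_cases i <;> rfl
      rw [e]; exact h1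
  obtain ⟨X, Y, sX, sY, hXY, hdec⟩ := hpd.canonical
  have hfd : FrameData (lf D) al be rh ta X Y :=
    { smα := sm_al, smβ := sm_be, smρ := sm_rh, smτ := sm_ta, smX := sX, smY := sY
      mX := fun p => (hXY p).1, mY := fun p => (hXY p).2.1
      αX := fun p => (hXY p).2.2.1, βX := fun p => (hXY p).2.2.2.1
      αY := fun p => (hXY p).2.2.2.2.1, βY := fun p => (hXY p).2.2.2.2.2
      dec := hdec, inj := co_inj, dual := dual }
  have heq : Equi (lf D) al be rh ta (fun g : BG A => sgm g) (fun g => sgm g * kap g)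
      (fun g => kap g) (fun _ => 1) :=
    { hK := fun g p v hv => lf_equi g p v hv
      hα := al_equi, hβ := be_equi, hρ := rh_equi, hτ := ta_equi
      ha := sgm_sq
      hb := fun g => by
        have h1 := sgm_sq g
        have h2 := kap_sq g
        linear_combination (kap g * kap g) * h1 + h2 }
  set F : E4 → ℝ := fun p => omg (red al be rh X Y) (red al be ta X Y) (lieBracket ℝ X Y) p
    (lieBracket ℝ X (lieBracket ℝ X Y) p) with hF
  set H : E4 → ℝ := fun p => omg (red al be rh X Y) (red al be ta X Y) (lieBracket ℝ X Y) p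
    (lieBracket ℝ Y (lieBracket ℝ X Y) p) with hH
  have cF : Continuous F :=
    (hfd.smom.clm_apply (hfd.smX.lieBracket_vectorField (m := ∞) hfd.smZ (by simp))).continuous
  have cH : Continuous H :=
    (hfd.smom.clm_apply (hfd.smY.lieBracket_vectorField (m := ∞) hfd.smZ (by simp))).continuous
  have hne : ∀ p, ¬ (F p = 0 ∧ H p = 0) := fun p =>
    hfd.level_two lf_closed lf_closed (lf_not_le hD1 hD2 p) (lf_top (hD3 _))
  have eF : ∀ (g : BG A) p, F (g • p) = sgm g * kap g * 1 * F p := fun g p =>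
    heq.two_f hfd g p
  have eH : ∀ (g : BG A) p, H (g • p) = sgm g * kap g * kap g * 1 * H p := fun g p =>
    heq.two_h hfd g p
  refine klein_two (fun x => (F (P x) : ℂ) + (H (P x) : ℂ) * Complex.I) ?_ ?_ ?_ ?_
  · exact (Complex.continuous_ofReal.comp (cF.comp P_cont)).add
      ((Complex.continuous_ofReal.comp (cH.comp P_cont)).mul continuous_const)
  · intro x h0
    apply hne (P x)
    have h1 := congrArg Complex.re h0
    have h2 := congrArg Complex.im h0
    simp at h1 h2
    exact ⟨h1, h2⟩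
  · intro x y
    rw [P_g1, eF, eH, sgm_g1, kap_g1]
    push_cast
    ring
  · intro x y
    rw [P_g2, eF, eH, sgm_g2, kap_g2]
    simp only [map_add, map_mul, Complex.conj_ofReal, Complex.conj_I]
    push_cast
    ring

lemma inner_zero (p v : E4) (h1 : al p v = 0) (h2 : be p v = 0) (u : E4) (hu : u ∈ Kx p) :
    inner ℝ v u = 0 := by
  rw [mem_Kx] at hu
  obtain ⟨h3, h4⟩ := hu
  rw [al_apply] at h1
  rw [be_apply] at h2
  rw [rh_apply] at h3
  rw [ta_apply] at h4
  have hs := cs1 (π * p 2)
  rw [PiLp.inner_apply, Fin.sum_univ_four]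
  simp only [RCLike.inner_apply, conj_trivial]
  rw [h1, h4]
  linear_combination (-sin (π * p 2) * u 0 + cos (π * p 2) * u 1) * h2 +
    (cos (π * p 2) * v 0 + sin (π * p 2) * v 1) * h3 - (u 0 * v 0 + u 1 * v 1) * hs

theorem main {N : TangentBundle (𝓡 4) (BM A) → ℝ} (hN : IsNormFamily N) :
    ∃ ε : ℝ, 0 < ε ∧ ∀ D : (x : BM A) → Submodule ℝ (TangentSpace (𝓡 4) x),
      IsEngel D → ¬ IsClose N ε (ds Kx) D := by
  obtain ⟨ε, hε, h⟩ := near_trans hN (ds (A := A) Kx)
  refine ⟨ε, hε, fun D hD hcl => no_engel D hD fun p v hv h1 h2 => ?_⟩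
  apply h D hcl p v hv
  intro u hu
  rw [lf_ds inv_Kx] at hu
  exact inner_zero p v h1 h2 u hu

end Pool.Agent.Helper454.Bott.ExOne
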