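import Mathlib

set_option autoImplicit false
set_option linter.unusedSectionVars false
open scoped ContDiff Topology
open Set VectorField

namespace Pool.Agent.Helper454.Bott

section
variable {E : Type} [NormedAddCommGroup E] [NormedSpace ℝ E]

/-- bracket identity for a one-form vanishing near a point on two fields -/
lemma form_bracket {θ : E → E →L[ℝ] ℝ} {X Y : E → E} {p : E}
    (hθ : DifferentiableAt ℝ θ p) (hX : DifferentiableAt ℝ X p) (hY : DifferentiableAt ℝ Y p)
    (h1 : ∀ᶠ u in 𝓝 p, θ u (X u) = 0) (h2 : ∀ᶠ u in 𝓝 p, θ u (Y u) = 0) :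
    θ p (lieBracket ℝ X Y p) = fderiv ℝ θ p (Y p) (X p) - fderiv ℝ θ p (X p) (Y p) := by
  have k1 := (hθ.hasFDerivAt.clm_apply hX.hasFDerivAt)
  have k2 := (hθ.hasFDerivAt.clm_apply hY.hasFDerivAt)
  have e1 : (fun u => θ u (X u)) =ᶠ[𝓝 p] fun _ => (0 : ℝ) := h1
  have e2 : (fun u => θ u (Y u)) =ᶠ[𝓝 p] fun _ => (0 : ℝ) := h2
  have z1 := k1.unique ((hasFDerivAt_const (0 : ℝ) p).congr_of_eventuallyEq e1)
  have z2 := k2.unique ((hasFDerivAt_const (0 : ℝ) p).congr_of_eventuallyEq e2)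
  have w1 := congrArg (fun L : E →L[ℝ] ℝ => L (Y p)) z1
  have w2 := congrArg (fun L : E →L[ℝ] ℝ => L (X p)) z2
  simp at w1 w2
  rw [lieBracket_eq]
  simp only [map_sub]
  linarith

/-- A family of planes in `E` with smooth local frames. -/
structure PlaneData (K : E → Submodule ℝ E) (α β : E → E →L[ℝ] ℝ) : Prop where
  smα : ContDiff ℝ ∞ α
  smβ : ContDiff ℝ ∞ β
  frame : ∀ p, ∃ X Y : E → E, ContDiffAt ℝ ∞ X p ∧ ContDiffAt ℝ ∞ Y p ∧
    (∀ᶠ q in 𝓝 p, K q = Submodule.span ℝ {X q, Y q}) ∧ LinearIndependent ℝ ![X p, Y p]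
  inj : ∀ p v, v ∈ K p → α p v = 0 → β p v = 0 → v = 0

variable {K : E → Submodule ℝ E} {α β : E → E →L[ℝ] ℝ}

/-- determinant of the two forms on a pair of vectors -/
def det2 (α β : E →L[ℝ] ℝ) (X Y : E) : ℝ := α X * β Y - α Y * β X

lemma PlaneData.det_ne (h : PlaneData K α β) {p : E} {X Y : E} (hK : K p = Submodule.span ℝ {X, Y})
    (hli : LinearIndependent ℝ ![X, Y]) : det2 (α p) (β p) X Y ≠ 0 := by
  intro h0
  unfold det2 at h0
  rw [LinearIndependent.pair_iff] at hli
  have hmem : ∀ a b : ℝ, a • X + b • Y ∈ K p := by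
    intro a b
    rw [hK]
    exact Submodule.mem_span_pair.2 ⟨a, b, rfl⟩
  have u1 := h.inj p _ (hmem (β p Y) (-β p X))
    (by simp only [map_add, map_smul, smul_eq_mul]; linarith)
    (by simp only [map_add, map_smul, smul_eq_mul]; ring)
  have u2 := h.inj p _ (hmem (α p Y) (-α p X))
    (by simp only [map_add, map_smul, smul_eq_mul]; ring)
    (by simp only [map_add, map_smul, smul_eq_mul]; linarith)
  obtain ⟨a1, a2⟩ := hli _ _ u1
  obtain ⟨b1, b2⟩ := hli _ _ u2
  have u3 := h.inj p _ (hmem 1 0)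
    (by simp only [map_add, map_smul, smul_eq_mul]; linarith)
    (by simp only [map_add, map_smul, smul_eq_mul]; linarith)
  obtain ⟨c1, _⟩ := hli _ _ u3
  exact one_ne_zero c1

/-- the normalised frame -/
theorem PlaneData.canonical (h : PlaneData K α β) :
    ∃ X Y : E → E, ContDiff ℝ ∞ X ∧ ContDiff ℝ ∞ Y ∧
      (∀ p, X p ∈ K p ∧ Y p ∈ K p ∧ α p (X p) = 1 ∧ β p (X p) = 0 ∧ α p (Y p) = 0 ∧
        β p (Y p) = 1) ∧
      (∀ p v, v ∈ K p → v = α p v • X p + β p v • Y p) := by
  have hex : ∀ p, ∃ x y : E, x ∈ K p ∧ y ∈ K p ∧ α p x = 1 ∧ β p x = 0 ∧ α p y = 0 ∧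
      β p y = 1 := by
    intro p
    obtain ⟨X, Y, -, -, hK, hli⟩ := h.frame p
    have hKp := hK.self_of_nhds
    have hd := h.det_ne hKp hli
    set d := det2 (α p) (β p) (X p) (Y p) with hdd
    have hmem : ∀ a b : ℝ, a • X p + b • Y p ∈ K p := by
      intro a b
      rw [hKp]
      exact Submodule.mem_span_pair.2 ⟨a, b, rfl⟩
    refine ⟨(β p (Y p) / d) • X p + (-β p (X p) / d) • Y p,
      (-α p (Y p) / d) • X p + (α p (X p) / d) • Y p, hmem _ _, hmem _ _, ?_, ?_, ?_, ?_⟩
    · simp only [map_add, map_smul, smul_eq_mul]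
      field_simp
      rw [hdd, det2]; ring
    · simp only [map_add, map_smul, smul_eq_mul]
      field_simp
      ring
    · simp only [map_add, map_smul, smul_eq_mul]
      field_simp
      ring
    · simp only [map_add, map_smul, smul_eq_mul]
      field_simp
      rw [hdd, det2]; ring
  choose X Y hX hY h1 h2 h3 h4 using hex
  have hdec : ∀ p v, v ∈ K p → v = α p v • X p + β p v • Y p := by
    intro p v hv
    have hm : v - (α p v • X p + β p v • Y p) ∈ K p :=
      (K p).sub_mem hv ((K p).add_mem ((K p).smul_mem _ (hX p)) ((K p).smul_mem _ (hY p)))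
    have := h.inj p _ hm
      (by simp only [map_sub, map_add, map_smul, smul_eq_mul, h1, h3]; ring)
      (by simp only [map_sub, map_add, map_smul, smul_eq_mul, h2, h4]; ring)
    exact sub_eq_zero.1 this
  refine ⟨X, Y, ?_, ?_, fun p => ⟨hX p, hY p, h1 p, h2 p, h3 p, h4 p⟩, hdec⟩
  all_goals
    rw [contDiff_iff_contDiffAt]
    intro p
    obtain ⟨X', Y', sX, sY, hK, hli⟩ := h.frame p
    have hd := h.det_ne hK.self_of_nhds hli
    have aX : ContDiffAt ℝ ∞ (fun q => α q (X' q)) p := h.smα.contDiffAt.clm_apply sX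
    have aY : ContDiffAt ℝ ∞ (fun q => α q (Y' q)) p := h.smα.contDiffAt.clm_apply sY
    have bX : ContDiffAt ℝ ∞ (fun q => β q (X' q)) p := h.smβ.contDiffAt.clm_apply sX
    have bY : ContDiffAt ℝ ∞ (fun q => β q (Y' q)) p := h.smβ.contDiffAt.clm_apply sY
    have hD : ContDiffAt ℝ ∞ (fun q => det2 (α q) (β q) (X' q) (Y' q)) p :=
      (aX.mul bY).sub (aY.mul bX)
    have hne : ∀ᶠ q in 𝓝 p, det2 (α q) (β q) (X' q) (Y' q) ≠ 0 :=
      hD.continuousAt.eventually_ne hd
  · have hs : ContDiffAt ℝ ∞ (fun q => (β q (Y' q) / det2 (α q) (β q) (X' q) (Y' q)) • X' q +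
        (-β q (X' q) / det2 (α q) (β q) (X' q) (Y' q)) • Y' q) p :=
      ((bY.div hD hd).smul sX).add ((bX.neg.div hD hd).smul sY)
    refine hs.congr_of_eventuallyEq ?_
    filter_upwards [hK, hne] with q hKq hq
    have hm : (β q (Y' q) / det2 (α q) (β q) (X' q) (Y' q)) • X' q +
        (-β q (X' q) / det2 (α q) (β q) (X' q) (Y' q)) • Y' q ∈ K q := by
      rw [hKq]; exact Submodule.mem_span_pair.2 ⟨_, _, rfl⟩
    have e := hdec q _ hm
    set d := det2 (α q) (β q) (X' q) (Y' q) with hdd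
    have e1 : α q ((β q (Y' q) / d) • X' q + (-β q (X' q) / d) • Y' q) = 1 := by
      simp only [map_add, map_smul, smul_eq_mul]
      field_simp
      rw [hdd, det2]; ring
    have e2 : β q ((β q (Y' q) / d) • X' q + (-β q (X' q) / d) • Y' q) = 0 := by
      simp only [map_add, map_smul, smul_eq_mul]
      field_simp
      ring
    rw [e1, e2, one_smul, zero_smul, add_zero] at e
    exact e.symm
  · have hs : ContDiffAt ℝ ∞ (fun q => (-α q (Y' q) / det2 (α q) (β q) (X' q) (Y' q)) • X' q +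
        (α q (X' q) / det2 (α q) (β q) (X' q) (Y' q)) • Y' q) p :=
      ((aY.neg.div hD hd).smul sX).add ((aX.div hD hd).smul sY)
    refine hs.congr_of_eventuallyEq ?_
    filter_upwards [hK, hne] with q hKq hq
    have hm : (-α q (Y' q) / det2 (α q) (β q) (X' q) (Y' q)) • X' q +
        (α q (X' q) / det2 (α q) (β q) (X' q) (Y' q)) • Y' q ∈ K q := by
      rw [hKq]; exact Submodule.mem_span_pair.2 ⟨_, _, rfl⟩
    have e := hdec q _ hm
    set d := det2 (α q) (β q) (X' q) (Y' q) with hdd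
    have e1 : α q ((-α q (Y' q) / d) • X' q + (α q (X' q) / d) • Y' q) = 0 := by
      simp only [map_add, map_smul, smul_eq_mul]
      field_simp
      ring
    have e2 : β q ((-α q (Y' q) / d) • X' q + (α q (X' q) / d) • Y' q) = 1 := by
      simp only [map_add, map_smul, smul_eq_mul]
      field_simp
      rw [hdd, det2]; ring
    rw [e1, e2, one_smul, zero_smul, zero_add] at e
    exact e.symm

end

end Pool.Agent.Helper454.Bott
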