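import Pool.Agent.Helper454.Bott.Frame

set_option autoImplicit false
set_option linter.unusedSectionVars false
open scoped ContDiff Topology
open Set VectorField

namespace Pool.Agent.Helper454.Bott

variable {E : Type} [NormedAddCommGroup E] [NormedSpace ℝ E]

/-- reduced form -/
noncomputable def red (α β ρ : E → E →L[ℝ] ℝ) (X Y : E → E) (p : E) : E →L[ℝ] ℝ :=
  ρ p - ρ p (X p) • α p - ρ p (Y p) • β p

lemma red_apply (α β ρ : E → E →L[ℝ] ℝ) (X Y : E → E) (p v : E) :
    red α β ρ X Y p v = ρ p v - ρ p (X p) * α p v - ρ p (Y p) * β p v := by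
  simp [red]

/-- the second level form -/
noncomputable def omg (r s : E → E →L[ℝ] ℝ) (Z : E → E) (p : E) : E →L[ℝ] ℝ :=
  r p (Z p) • s p - s p (Z p) • r p

lemma omg_apply (r s : E → E →L[ℝ] ℝ) (Z : E → E) (p v : E) :
    omg r s Z p v = r p (Z p) * s p v - s p (Z p) * r p v := by
  simp [omg]

/-- alternating form attached to a one-form -/
noncomputable def bf (θ : E → E →L[ℝ] ℝ) (p v w : E) : ℝ :=
  fderiv ℝ θ p w v - fderiv ℝ θ p v w

lemma bf_self (θ : E → E →L[ℝ] ℝ) (p v : E) : bf θ p v v = 0 := by simp [bf]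
lemma bf_swap (θ : E → E →L[ℝ] ℝ) (p v w : E) : bf θ p v w = - bf θ p w v := by simp [bf]
lemma bf_add_left (θ : E → E →L[ℝ] ℝ) (p v v' w : E) :
    bf θ p (v + v') w = bf θ p v w + bf θ p v' w := by
  simp [bf]; ring
lemma bf_add_right (θ : E → E →L[ℝ] ℝ) (p v w w' : E) :
    bf θ p v (w + w') = bf θ p v w + bf θ p v w' := by
  simp [bf]; ring
lemma bf_smul_left (θ : E → E →L[ℝ] ℝ) (p v w : E) (c : ℝ) :
    bf θ p (c • v) w = c * bf θ p v w := by
  simp [bf]; ring
lemma bf_smul_right (θ : E → E →L[ℝ] ℝ) (p v w : E) (c : ℝ) :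
    bf θ p v (c • w) = c * bf θ p v w := by
  simp [bf]; ring

/-- canonical frame data -/
structure FrameData (K : E → Submodule ℝ E) (α β ρ τ : E → E →L[ℝ] ℝ) (X Y : E → E) : Prop where
  smα : ContDiff ℝ ∞ α
  smβ : ContDiff ℝ ∞ β
  smρ : ContDiff ℝ ∞ ρ
  smτ : ContDiff ℝ ∞ τ
  smX : ContDiff ℝ ∞ X
  smY : ContDiff ℝ ∞ Y
  mX : ∀ p, X p ∈ K p
  mY : ∀ p, Y p ∈ K p
  αX : ∀ p, α p (X p) = 1
  βX : ∀ p, β p (X p) = 0
  αY : ∀ p, α p (Y p) = 0
  βY : ∀ p, β p (Y p) = 1
  dec : ∀ p v, v ∈ K p → v = α p v • X p + β p v • Y p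
  inj : ∀ p v, α p v = 0 → β p v = 0 → ρ p v = 0 → τ p v = 0 → v = 0
  dual : ∀ p, ∃ R T : E, α p R = 0 ∧ β p R = 0 ∧ ρ p R = 1 ∧ τ p R = 0 ∧
    α p T = 0 ∧ β p T = 0 ∧ ρ p T = 0 ∧ τ p T = 1

variable {K : E → Submodule ℝ E} {α β ρ τ : E → E →L[ℝ] ℝ} {X Y : E → E}

lemma FrameData.smZ (h : FrameData K α β ρ τ X Y) : ContDiff ℝ ∞ (lieBracket ℝ X Y) :=
  h.smX.lieBracket_vectorField h.smY (by simp)

lemma FrameData.smr (h : FrameData K α β ρ τ X Y) : ContDiff ℝ ∞ (red α β ρ X Y) :=
  (h.smρ.sub ((h.smρ.clm_apply h.smX).smul h.smα)).sub ((h.smρ.clm_apply h.smY).smul h.smβ)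

lemma FrameData.sms (h : FrameData K α β ρ τ X Y) : ContDiff ℝ ∞ (red α β τ X Y) :=
  (h.smτ.sub ((h.smτ.clm_apply h.smX).smul h.smα)).sub ((h.smτ.clm_apply h.smY).smul h.smβ)

lemma FrameData.smom (h : FrameData K α β ρ τ X Y) :
    ContDiff ℝ ∞ (omg (red α β ρ X Y) (red α β τ X Y) (lieBracket ℝ X Y)) :=
  ((h.smr.clm_apply h.smZ).smul h.sms).sub ((h.sms.clm_apply h.smZ).smul h.smr)

lemma FrameData.rK (h : FrameData K α β ρ τ X Y) (p v : E) (hv : v ∈ K p) :
    red α β ρ X Y p v = 0 := by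
  rw [h.dec p v hv]
  simp only [red_apply, map_add, map_smul, smul_eq_mul, h.αX, h.βX, h.αY, h.βY]
  ring

lemma FrameData.sK (h : FrameData K α β ρ τ X Y) (p v : E) (hv : v ∈ K p) :
    red α β τ X Y p v = 0 := by
  rw [h.dec p v hv]
  simp only [red_apply, map_add, map_smul, smul_eq_mul, h.αX, h.βX, h.αY, h.βY]
  ring

lemma FrameData.mem_K (h : FrameData K α β ρ τ X Y) (p v : E) (hr : red α β ρ X Y p v = 0)
    (hs : red α β τ X Y p v = 0) : v ∈ K p := by
  rw [red_apply] at hr hs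
  have h1 := h.inj p (v - (α p v • X p + β p v • Y p))
    (by simp only [map_sub, map_add, map_smul, smul_eq_mul, h.αX, h.αY]; ring)
    (by simp only [map_sub, map_add, map_smul, smul_eq_mul, h.βX, h.βY]; ring)
    (by simp only [map_sub, map_add, map_smul, smul_eq_mul]; linarith)
    (by simp only [map_sub, map_add, map_smul, smul_eq_mul]; linarith)
  rw [sub_eq_zero.1 h1]
  exact (K p).add_mem ((K p).smul_mem _ (h.mX p)) ((K p).smul_mem _ (h.mY p))

lemma dat {F : Type} [NormedAddCommGroup F] [NormedSpace ℝ F] {f : E → F}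
    (hf : ContDiff ℝ ∞ f) (p : E) : DifferentiableAt ℝ f p := hf.differentiable (by simp) p

/-- a one-form vanishing on `K`: its value on a bracket of sections -/
lemma FrameData.form_K (h : FrameData K α β ρ τ X Y) {θ : E → E →L[ℝ] ℝ}
    (hθ : ContDiff ℝ ∞ θ) (hθK : ∀ p v, v ∈ K p → θ p v = 0) {V W : E → E} {p : E}
    (hV : DifferentiableAt ℝ V p) (hW : DifferentiableAt ℝ W p)
    (hVK : ∀ᶠ q in 𝓝 p, V q ∈ K q) (hWK : ∀ᶠ q in 𝓝 p, W q ∈ K q) :
    θ p (lieBracket ℝ V W p) = (α p (V p) * β p (W p) - β p (V p) * α p (W p)) *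
      θ p (lieBracket ℝ X Y p) := by
  have e1 : θ p (lieBracket ℝ V W p) = bf θ p (V p) (W p) :=
    form_bracket (dat hθ p) hV hW (hVK.mono fun q hq => hθK q _ hq)
      (hWK.mono fun q hq => hθK q _ hq)
  have e2 : θ p (lieBracket ℝ X Y p) = bf θ p (X p) (Y p) :=
    form_bracket (dat hθ p) (dat h.smX p) (dat h.smY p)
      (Filter.Eventually.of_forall fun q => hθK q _ (h.mX q))
      (Filter.Eventually.of_forall fun q => hθK q _ (h.mY q))
  rw [e1, e2]
  have dV := h.dec p _ hVK.self_of_nhds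
  have dW := h.dec p _ hWK.self_of_nhds
  generalize α p (V p) = a at *
  generalize β p (V p) = b at *
  generalize α p (W p) = c at *
  generalize β p (W p) = d at *
  rw [dV, dW]
  simp only [bf_add_left, bf_add_right, bf_smul_left, bf_smul_right, bf_self]
  rw [bf_swap θ p (Y p) (X p)]
  ring

/-- bracket closure of a family of subspaces -/
def BrClosed (K K2 : E → Submodule ℝ E) : Prop :=
  ∀ (p : E) (S : Submodule ℝ E), K p ≤ S →
    (∀ V W : E → E, DifferentiableAt ℝ V p → DifferentiableAt ℝ W p →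
      (∀ᶠ q in 𝓝 p, V q ∈ K q) → (∀ᶠ q in 𝓝 p, W q ∈ K q) → lieBracket ℝ V W p ∈ S) → K2 p ≤ S

/-- first level: the bracket of the frame is transverse to the plane. -/
theorem FrameData.level_one (h : FrameData K α β ρ τ X Y) {K2 : E → Submodule ℝ E}
    (h2 : BrClosed K K2) {p : E} (hne : ¬ K2 p ≤ K p) :
    ¬ (red α β ρ X Y p (lieBracket ℝ X Y p) = 0 ∧ red α β τ X Y p (lieBracket ℝ X Y p) = 0) := by
  rintro ⟨h3, h4⟩
  apply hne
  apply h2 p (K p) le_rfl
  intro V W hV hW hVK hWK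
  apply h.mem_K
  · rw [h.form_K h.smr h.rK hV hW hVK hWK, h3, mul_zero]
  · rw [h.form_K h.sms h.sK hV hW hVK hWK, h4, mul_zero]

/-- second level -/
theorem FrameData.level_two (h : FrameData K α β ρ τ X Y) {K2 K3 : E → Submodule ℝ E}
    (h2 : BrClosed K K2) (h3 : BrClosed K2 K3) {p : E} (hne : ¬ K2 p ≤ K p) (htop : K3 p = ⊤) :
    ¬ (omg (red α β ρ X Y) (red α β τ X Y) (lieBracket ℝ X Y) p
        (lieBracket ℝ X (lieBracket ℝ X Y) p) = 0 ∧
      omg (red α β ρ X Y) (red α β τ X Y) (lieBracket ℝ X Y) p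
        (lieBracket ℝ Y (lieBracket ℝ X Y) p) = 0) := by
  rintro ⟨hf, hh⟩
  have h1 := h.level_one h2 hne
  set r := red α β ρ X Y with hr
  set s := red α β τ X Y with hs
  set Z := lieBracket ℝ X Y with hZ
  set om := omg r s Z with hom
  have homK : ∀ q v, v ∈ K q → om q v = 0 := by
    intro q v hv
    rw [hom, omg_apply, h.rK q v hv, h.sK q v hv]; ring
  have homZ : ∀ q, om q (Z q) = 0 := by
    intro q
    rw [hom, omg_apply]; ring
  -- the derived distribution is contained in the kernel of the second level form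
  have hK2 : ∀ q v, v ∈ K2 q → om q v = 0 := by
    intro q v hv
    have hle : K2 q ≤ LinearMap.ker (om q : E →ₗ[ℝ] ℝ) := by
      apply h2 q
      · intro w hw
        exact homK q w hw
      · intro V W hV hW hVK hWK
        change om q _ = 0
        rw [h.form_K h.smom homK hV hW hVK hWK]
        change _ * om q (Z q) = 0
        rw [homZ, mul_zero]
    exact hle hv
  -- sections of the derived distribution at the point
  have hdec : ∀ v, om p v = 0 → ∃ a b c : ℝ, v = a • X p + b • Y p + c • Z p := by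
    intro v hv
    rw [hom, omg_apply] at hv
    have hex : ∃ c : ℝ, r p v = c * r p (Z p) ∧ s p v = c * s p (Z p) := by
      by_cases h0 : r p (Z p) = 0
      · have h0' : s p (Z p) ≠ 0 := fun h5 => h1 ⟨h0, h5⟩
        rw [h0] at hv ⊢
        have : r p v = 0 := by
          have : s p (Z p) * r p v = 0 := by linarith
          rcases mul_eq_zero.1 this with h | h
          · exact absurd h h0'
          · exact h
        exact ⟨s p v / s p (Z p), by rw [this]; ring, by field_simp⟩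
      · refine ⟨r p v / r p (Z p), by field_simp, ?_⟩
        field_simp
        linarith
    obtain ⟨c, hc1, hc2⟩ := hex
    have hm : v - c • Z p ∈ K p := by
      apply h.mem_K
      · change r p _ = 0
        rw [map_sub, map_smul, smul_eq_mul, hc1]; ring
      · change s p _ = 0
        rw [map_sub, map_smul, smul_eq_mul, hc2]; ring
    refine ⟨α p (v - c • Z p), β p (v - c • Z p), c, ?_⟩
    rw [← h.dec p _ hm]
    abel
  have hsmZ : ContDiff ℝ ∞ Z := h.smZ
  have hb1 : bf om p (X p) (Y p) = 0 := by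
    have := form_bracket (dat h.smom p) (dat h.smX p) (dat h.smY p)
      (Filter.Eventually.of_forall fun q => homK q _ (h.mX q))
      (Filter.Eventually.of_forall fun q => homK q _ (h.mY q))
    exact this.symm.trans (homZ p)
  have hb2 : bf om p (X p) (Z p) = 0 := by
    have := form_bracket (dat h.smom p) (dat h.smX p) (dat hsmZ p)
      (Filter.Eventually.of_forall fun q => homK q _ (h.mX q))
      (Filter.Eventually.of_forall fun q => homZ q)
    exact this.symm.trans hf
  have hb3 : bf om p (Y p) (Z p) = 0 := by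
    have := form_bracket (dat h.smom p) (dat h.smY p) (dat hsmZ p)
      (Filter.Eventually.of_forall fun q => homK q _ (h.mY q))
      (Filter.Eventually.of_forall fun q => homZ q)
    exact this.symm.trans hh
  have hK3 : K3 p ≤ LinearMap.ker (om p : E →ₗ[ℝ] ℝ) := by
    apply h3 p
    · intro v hv
      exact hK2 p v hv
    · intro V W hV hW hVK hWK
      change om p _ = 0
      have e1 : om p (lieBracket ℝ V W p) = bf om p (V p) (W p) :=
        form_bracket (dat h.smom p) hV hW (hVK.mono fun q hq => hK2 q _ hq)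
          (hWK.mono fun q hq => hK2 q _ hq)
      obtain ⟨a, b, c, hv⟩ := hdec _ (hK2 p _ hVK.self_of_nhds)
      obtain ⟨a', b', c', hw⟩ := hdec _ (hK2 p _ hWK.self_of_nhds)
      rw [e1, hv, hw]
      simp only [bf_add_left, bf_add_right, bf_smul_left, bf_smul_right, bf_self]
      rw [bf_swap om p (Y p) (X p), bf_swap om p (Z p) (X p), bf_swap om p (Z p) (Y p), hb1, hb2, hb3]
      ring
  rw [htop] at hK3
  obtain ⟨R, T, aR, bR, rR, tR, aT, bT, rT, tT⟩ := h.dual p
  have k1 : om p R = 0 := hK3 (Submodule.mem_top (x := R))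
  have k2 : om p T = 0 := hK3 (Submodule.mem_top (x := T))
  rw [hom, omg_apply] at k1 k2
  have r1 : r p R = 1 := by rw [hr, red_apply, aR, bR, rR]; ring
  have r2 : s p R = 0 := by rw [hs, red_apply, aR, bR, tR]; ring
  have r3 : r p T = 0 := by rw [hr, red_apply, aT, bT, rT]; ring
  have r4 : s p T = 1 := by rw [hs, red_apply, aT, bT, tT]; ring
  rw [r1, r2] at k1
  rw [r3, r4] at k2
  exact h1 ⟨by linarith, by linarith⟩

end Pool.Agent.Helper454.Bott
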