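import Pool.Agent.Helper454.Bott.Grp

set_option autoImplicit false
set_option linter.unusedSectionVars false
open scoped Manifold ContDiff Topology
open Set

namespace Pool.Agent.Helper454.Bott

/-- The closed flat four-manifold attached to a sign matrix. -/
def BM (A : Fin 4 → Fin 4 → ℤ) : Type := MulAction.orbitRel.Quotient (BG A) E4

/-- the projection -/
noncomputable def pr (A : Fin 4 → Fin 4 → ℤ) : E4 → BM A := Quotient.mk (MulAction.orbitRel (BG A) E4)

variable {A : Fin 4 → Fin 4 → ℤ}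

instance : TopologicalSpace (BM A) :=
  inferInstanceAs (TopologicalSpace (MulAction.orbitRel.Quotient (BG A) E4))

variable [LT A]

lemma pr_cov : IsQuotientCoveringMap (pr A) (BG A) :=
  isQuotientCoveringMap_quotientMk_of_properlyDiscontinuousSMul

instance : T2Space (BM A) :=
  inferInstanceAs (T2Space (Quotient (MulAction.orbitRel (BG A) E4)))

noncomputable instance : ChartedSpace E4 (BM A) := QuotMfd.cs pr_cov

instance : IsManifold (𝓡 4) ∞ (BM A) := QuotMfd.isManifold pr_cov contDiff_smul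

lemma pr_diffeo : IsLocalDiffeomorph (𝓡 4) (𝓡 4) ∞ (pr A) :=
  QuotMfd.isLocalDiffeomorph pr_cov contDiff_smul

instance : Nonempty (BM A) := ⟨pr A 0⟩

instance : ConnectedSpace (BM A) :=
  (pr_cov (A := A)).surjective.connectedSpace (pr_cov (A := A)).continuous

lemma exists_box_aux (p : E4) (n : ℕ) (hn : n ≤ 4) :
    ∃ g : BG A, ∀ i : Fin 4, (i : ℕ) < n → (g • p) i ∈ Icc (0 : ℝ) 1 := by
  induction n with
  | zero => exact ⟨1, fun i hi => absurd hi (Nat.not_lt_zero _)⟩
  | succ n ih =>
    obtain ⟨g, hg⟩ := ih (by omega)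
    let i0 : Fin 4 := ⟨n, by omega⟩
    let e : BG A := fun j => if j = i0 then -⌊(g • p) i0⌋ else 0
    have he0 : e i0 = -⌊(g • p) i0⌋ := if_pos rfl
    have he : ∀ j, j ≠ i0 → e j = 0 := fun j hj => if_neg hj
    have hs : ∀ i : Fin 4, i ≤ i0 → sg A i e = 1 := by
      intro i hi
      have : chi (A i) e = 1 := by
        unfold chi
        apply Finset.prod_eq_one
        intro j _
        by_cases hj : j = i0
        · rw [hj, LT.out (A := A) i i0 hi]; simp
        · rw [he j hj]; simp
      rw [sg, this]; simp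
    refine ⟨e * g, fun i hi => ?_⟩
    rw [mul_smul, smul_apply]
    by_cases hii : i = i0
    · subst hii
      rw [hs _ le_rfl, he0]
      have h1 := Int.floor_le ((g • p) i0)
      have h2 := Int.lt_floor_add_one ((g • p) i0)
      push_cast
      constructor <;> linarith
    · have hlt : (i : ℕ) < n := by
        have : (i : ℕ) ≠ n := fun h => hii (Fin.ext h)
        omega
      rw [hs i (by change (i : ℕ) ≤ n; omega), he i hii]
      have := hg i hlt
      simpa using this

lemma exists_box (p : E4) : ∃ g : BG A, ∀ i : Fin 4, (g • p) i ∈ Icc (0 : ℝ) 1 := by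
  obtain ⟨g, hg⟩ := exists_box_aux (A := A) p 4 le_rfl
  exact ⟨g, fun i => hg i i.2⟩

/-- the unit box -/
def box : Set E4 := {p | ∀ i, p i ∈ Icc (0 : ℝ) 1}

lemma isCompact_box : IsCompact box := by
  have h1 : IsCompact (Set.pi univ fun _ : Fin 4 => Icc (0 : ℝ) 1) :=
    isCompact_univ_pi fun _ => isCompact_Icc
  have h2 := h1.image (PiLp.continuous_toLp 2 (fun _ : Fin 4 => ℝ))
  refine h2.of_isClosed_subset ?_ ?_
  · have : box = ⋂ i, (fun p : E4 => p i) ⁻¹' Icc (0 : ℝ) 1 := by
      ext p; simp [box]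
    rw [this]
    exact isClosed_iInter fun i => isClosed_Icc.preimage (EuclideanSpace.proj i).continuous
  · intro p hp
    exact ⟨fun i => p i, fun i _ => hp i, by ext i; rfl⟩

lemma pr_box : pr A '' box = univ := by
  apply eq_univ_of_forall
  intro y
  obtain ⟨p, rfl⟩ := (pr_cov (A := A)).surjective y
  obtain ⟨g, hg⟩ := exists_box (A := A) p
  exact ⟨g • p, hg, (pr_cov (A := A)).map_smul g⟩

instance : CompactSpace (BM A) := by
  constructor
  rw [← pr_box (A := A)]
  exact isCompact_box.image (pr_cov (A := A)).continuous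

/-- derivative of the projection -/
noncomputable def dpr (A : Fin 4 → Fin 4 → ℤ) [LT A] (p : E4) : E4 →L[ℝ] E4 :=
  mfderiv (𝓡 4) (𝓡 4) (pr A) p

lemma dpr_inv (p : E4) : (dpr A p).IsInvertible := QuotMfd.mfderiv_invertible pr_diffeo p

lemma dpr_bij (p : E4) : Function.Bijective (dpr A p) :=
  ⟨(dpr_inv p).injective, fun y => ⟨(dpr A p).inverse y, (dpr_inv p).self_apply_inverse y⟩⟩

lemma dpr_smul (g : BG A) (p v : E4) : dpr A (g • p) (lin g v) = dpr A p v := by
  have := QuotMfd.mfderiv_smul (pr_cov (A := A)) pr_diffeo contDiff_smul g p v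
  rw [fderiv_smul_eq] at this
  exact this

/-- section of the projection used by the charts -/
noncomputable def sc (A : Fin 4 → Fin 4 → ℤ) [LT A] : BM A → E4 := QuotMfd.sec (pr_cov (A := A))

lemma sc_spec (y : BM A) : pr A (sc A y) = y := QuotMfd.sec_spec pr_cov y

/-- push forward of an invariant field -/
noncomputable def pf (A : Fin 4 → Fin 4 → ℤ) [LT A] (X : E4 → E4) :
    (y : BM A) → TangentSpace (𝓡 4) y := QuotMfd.push (pr A) (sc A) X

lemma pf_apply {X : E4 → E4} (hX : QuotMfd.Inv (BG A) X) (p : E4) :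
    pf A X (pr A p) = dpr A p (X p) :=
  QuotMfd.push_apply pr_cov pr_diffeo contDiff_smul sc_spec hX p

lemma pf_smooth {X : E4 → E4} (hX : QuotMfd.Inv (BG A) X) (hXs : ContDiff ℝ ∞ X) :
    ContMDiff (𝓡 4) (𝓡 4).tangent ∞ (fun y => (pf A X y : TangentBundle (𝓡 4) (BM A))) :=
  QuotMfd.push_smooth pr_cov pr_diffeo contDiff_smul sc_spec hX hXs

lemma pf_bracket {X Y : E4 → E4} (hX : QuotMfd.Inv (BG A) X) (hY : QuotMfd.Inv (BG A) Y)
    (hXs : ContDiff ℝ ∞ X) (hYs : ContDiff ℝ ∞ Y) (p : E4) :
    VectorField.mlieBracket (𝓡 4) (pf A X) (pf A Y) (pr A p) =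
      dpr A p (VectorField.lieBracket ℝ X Y p) :=
  QuotMfd.mlieBracket_push_apply pr_cov pr_diffeo contDiff_smul sc_spec hX hY hXs hYs p

end Pool.Agent.Helper454.Bott
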