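import Pool.Agent.Helper454.Descend

set_option autoImplicit false
set_option linter.unusedSectionVars false
open scoped Manifold ContDiff Topology
open Set VectorField

namespace Pool.Agent.Helper454.QuotMfd

variable {E : Type} [NormedAddCommGroup E] [NormedSpace ℝ E] [CompleteSpace E]
variable {M : Type} [TopologicalSpace M] [ChartedSpace E M] [IsManifold 𝓘(ℝ, E) ∞ M]
variable {q : E → M}

/-- pull back of a vector field along the projection -/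
noncomputable def pb (q : E → M) (X : (y : M) → TangentSpace 𝓘(ℝ, E) y) (p : E) : E :=
  (show E from mpullback 𝓘(ℝ, E) 𝓘(ℝ, E) q X p)

lemma pb_apply (hl : IsLocalDiffeomorph 𝓘(ℝ, E) 𝓘(ℝ, E) ∞ q)
    (X : (y : M) → TangentSpace 𝓘(ℝ, E) y) (p : E) :
    mfderiv 𝓘(ℝ, E) 𝓘(ℝ, E) q p (pb (E := E) q X p) = X (q p) :=
  (mfderiv_invertible hl p).self_apply_inverse _

lemma pb_smoothAt (hl : IsLocalDiffeomorph 𝓘(ℝ, E) 𝓘(ℝ, E) ∞ q)
    {X : (y : M) → TangentSpace 𝓘(ℝ, E) y} {p : E}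
    (hX : ContMDiffAt 𝓘(ℝ, E) 𝓘(ℝ, E).tangent ∞
      (fun y => (X y : TangentBundle 𝓘(ℝ, E) M)) (q p)) :
    ContDiffAt ℝ ∞ (pb q X) p := by
  apply contMDiffAt_vectorSpace_iff_contDiffAt.1
  exact ContMDiffAt.mpullback_vectorField_preimage hX (hl.contMDiff p)
    (mfderiv_invertible hl p) (by simp)

lemma pb_bracket (hl : IsLocalDiffeomorph 𝓘(ℝ, E) 𝓘(ℝ, E) ∞ q)
    {X Y : (y : M) → TangentSpace 𝓘(ℝ, E) y} {p : E}
    (hX : ContMDiffAt 𝓘(ℝ, E) 𝓘(ℝ, E).tangent ∞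
      (fun y => (X y : TangentBundle 𝓘(ℝ, E) M)) (q p))
    (hY : ContMDiffAt 𝓘(ℝ, E) 𝓘(ℝ, E).tangent ∞
      (fun y => (Y y : TangentBundle 𝓘(ℝ, E) M)) (q p)) :
    mfderiv 𝓘(ℝ, E) 𝓘(ℝ, E) q p (show E from lieBracket ℝ (pb (E := E) q X) (pb q Y) p) =
      mlieBracket 𝓘(ℝ, E) X Y (q p) := by
  have hman : IsManifold 𝓘(ℝ, E) (minSmoothness ℝ 2) M :=
    IsManifold.of_le (n := ∞) (by rw [minSmoothness_of_isRCLikeNormedField]; exact two_le_infty)
  have h1 := hX.mdifferentiableAt (by simp)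
  have h2 := hY.mdifferentiableAt (by simp)
  have h3 := mpullback_mlieBracket (I := 𝓘(ℝ, E)) (x₀ := p) h1 h2 (hl.contMDiff p)
    (by rw [minSmoothness_of_isRCLikeNormedField]; exact two_le_infty)
  have h4 : mlieBracket 𝓘(ℝ, E) (mpullback 𝓘(ℝ, E) 𝓘(ℝ, E) q X)
      (mpullback 𝓘(ℝ, E) 𝓘(ℝ, E) q Y) p =
      (show E from lieBracket ℝ (pb (E := E) q X) (pb q Y) p) := by
    rw [← mlieBracketWithin_univ, mlieBracketWithin_eq_lieBracketWithin, lieBracketWithin_univ]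
    rfl
  rw [mpullback_apply] at h3
  have h5 := ((mfderiv_invertible hl p).inverse_apply_eq).1 h3
  rw [h5, h4]

end Pool.Agent.Helper454.QuotMfd
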