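import Pool.Agent.Helper454.Bott.Equi
import Pool.Agent.Helper454.Bott.Mfd
import Pool.Agent.Helper454.Bott.Pull
import Pool.Agent.Helper454.Bott.Defs

set_option autoImplicit false
set_option linter.unusedSectionVars false
open scoped Manifold ContDiff Topology
open Set VectorField Pool.Agent.Helper454.EngelDefs

namespace Pool.Agent.Helper454.Bott

variable {A : Fin 4 → Fin 4 → ℤ} [LT A]

/-- lift of a distribution to the universal cover -/
noncomputable def lf (D : (x : BM A) → Submodule ℝ (TangentSpace (𝓡 4) x)) (p : E4) :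
    Submodule ℝ E4 :=
  Submodule.comap (dpr A p : E4 →ₗ[ℝ] E4) (show Submodule ℝ E4 from D (pr A p))

variable {D : (x : BM A) → Submodule ℝ (TangentSpace (𝓡 4) x)}

lemma mem_lf {p v : E4} : v ∈ lf D p ↔ dpr A p v ∈ (show Submodule ℝ E4 from D (pr A p)) :=
  Iff.rfl

lemma ev_pr {P : BM A → Prop} {p : E4} (h : ∀ᶠ y in 𝓝 (pr A p), P y) :
    ∀ᶠ q in 𝓝 p, P (pr A q) :=
  (pr_cov (A := A)).continuous.continuousAt.eventually h

lemma ev_of_ev_pr {P : BM A → Prop} {p : E4} (h : ∀ᶠ q in 𝓝 p, P (pr A q)) :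
    ∀ᶠ y in 𝓝 (pr A p), P y := by
  rw [← (pr_cov (A := A)).isCoveringMap.isLocalHomeomorph.map_nhds_eq p, Filter.eventually_map]
  exact h

/-- pull back of a field -/
noncomputable def pbk (X : (y : BM A) → TangentSpace (𝓡 4) y) (p : E4) : E4 :=
  QuotMfd.pb (pr A) X p

lemma dpr_pbk (X : (y : BM A) → TangentSpace (𝓡 4) y) (p : E4) :
    dpr A p (pbk X p) = X (pr A p) := QuotMfd.pb_apply pr_diffeo X p

lemma pbk_smooth {X : (y : BM A) → TangentSpace (𝓡 4) y} {p : E4}
    (hX : SmoothNear X (pr A p)) : ∀ᶠ q in 𝓝 p, ContDiffAt ℝ ∞ (pbk X) q := by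
  filter_upwards [ev_pr hX] with q hq
  exact QuotMfd.pb_smoothAt pr_diffeo hq

lemma pbk_bracket {X Y : (y : BM A) → TangentSpace (𝓡 4) y} {p : E4}
    (hX : SmoothNear X (pr A p)) (hY : SmoothNear Y (pr A p)) :
    dpr A p (lieBracket ℝ (pbk X) (pbk Y) p) = mlieBracket (𝓡 4) X Y (pr A p) :=
  QuotMfd.pb_bracket pr_diffeo hX.self_of_nhds hY.self_of_nhds

lemma mem_lf_pbk {X : (y : BM A) → TangentSpace (𝓡 4) y} {p : E4}
    (h : X (pr A p) ∈ D (pr A p)) : pbk X p ∈ lf D p := by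
  rw [mem_lf, dpr_pbk]
  exact h

lemma map_lf (p : E4) : (lf D p).map (dpr A p : E4 →ₗ[ℝ] E4) =
    (show Submodule ℝ E4 from D (pr A p)) :=
  Submodule.map_comap_eq_of_surjective (dpr_bij p).2 _

lemma lf_frame {k : ℕ} (hD : IsDistribution k D) (p : E4) :
    ∃ X : Fin k → E4 → E4, (∀ i, ∀ᶠ q in 𝓝 p, ContDiffAt ℝ ∞ (X i) q) ∧
      ∀ᶠ q in 𝓝 p, LinearIndependent ℝ (fun i => X i q) ∧
        lf D q = Submodule.span ℝ (Set.range fun i => X i q) := by
  obtain ⟨X, hX, hXD⟩ := hD (pr A p)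
  refine ⟨fun i => pbk (X i), fun i => pbk_smooth (hX i), ?_⟩
  filter_upwards [ev_pr hXD] with q hq
  obtain ⟨h1, h2⟩ := hq
  have e : (fun i => X i (pr A q)) = fun i => dpr A q (pbk (X i) q) := by
    funext i; rw [dpr_pbk]
  constructor
  · have h3 : LinearIndependent ℝ (fun i => dpr A q (pbk (X i) q)) := by
      rw [← e]; exact h1
    exact LinearIndependent.of_comp (dpr A q : E4 →ₗ[ℝ] E4) h3
  · apply Submodule.map_injective_of_injective (f := (dpr A q : E4 →ₗ[ℝ] E4)) (dpr_bij q).1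
    rw [map_lf, Submodule.map_span, ← Set.range_comp]
    have e2 : (⇑(dpr A q : E4 →ₗ[ℝ] E4) ∘ fun i => pbk (X i) q) = fun i => X i (pr A q) := e.symm
    rw [e2]
    exact h2

lemma finrank_lf {k : ℕ} (hD : IsDistribution k D) (p : E4) :
    Module.finrank ℝ (lf D p) = k := by
  obtain ⟨X, -, hX⟩ := lf_frame hD p
  obtain ⟨h1, h2⟩ := hX.self_of_nhds
  rw [h2, finrank_span_eq_card h1, Fintype.card_fin]

lemma lf_closed : BrClosed (lf D) (lf (bracketDist D)) := by
  intro p S hS hbr v hv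
  rw [mem_lf] at hv
  have hle : (show Submodule ℝ E4 from bracketDist D (pr A p)) ≤
      S.map (dpr A p : E4 →ₗ[ℝ] E4) := by
    have h1 : (show Submodule ℝ E4 from D (pr A p)) ≤ S.map (dpr A p : E4 →ₗ[ℝ] E4) := by
      rw [← map_lf (D := D) p]
      exact Submodule.map_mono hS
    have h2 : (Submodule.span ℝ {v : E4 | ∃ X Y : (y : BM A) → TangentSpace (𝓡 4) y,
        SectionNear D X (pr A p) ∧ SectionNear D Y (pr A p) ∧
        v = VectorField.mlieBracket (𝓡 4) X Y (pr A p)}) ≤ S.map (dpr A p : E4 →ₗ[ℝ] E4) := by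
      rw [Submodule.span_le]
      rintro w ⟨X, Y, hX, hY, rfl⟩
      refine ⟨lieBracket ℝ (pbk X) (pbk Y) p, ?_, ?_⟩
      · apply hbr
        · exact (pbk_smooth hX.1).self_of_nhds.differentiableAt (by simp)
        · exact (pbk_smooth hY.1).self_of_nhds.differentiableAt (by simp)
        · exact (ev_pr hX.2).mono fun q hq => mem_lf_pbk hq
        · exact (ev_pr hY.2).mono fun q hq => mem_lf_pbk hq
      · exact pbk_bracket hX.1 hY.1
    exact sup_le h1 h2
  obtain ⟨w, hw, hwv⟩ := hle hv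
  have : w = v := (dpr_bij p).1 hwv
  rwa [← this]

lemma lf_not_le (hD : IsDistribution 2 D) (hD2 : IsDistribution 3 (bracketDist D)) (p : E4) :
    ¬ lf (bracketDist D) p ≤ lf D p := by
  intro h
  have h1 := Submodule.finrank_mono h
  rw [finrank_lf hD, finrank_lf hD2] at h1
  omega

lemma lf_top {D : (x : BM A) → Submodule ℝ (TangentSpace (𝓡 4) x)} {p : E4}
    (h : D (pr A p) = ⊤) : lf D p = ⊤ := by
  rw [eq_top_iff]
  intro v _
  rw [mem_lf]
  have : (show Submodule ℝ E4 from D (pr A p)) = ⊤ := h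
  rw [this]
  trivial

lemma mem_congr {x y : BM A} (h : x = y) (w : E4) :
    w ∈ (show Submodule ℝ E4 from D x) ↔ w ∈ (show Submodule ℝ E4 from D y) := by
  subst h; rfl

lemma lf_equi (g : BG A) (p v : E4) (hv : v ∈ lf D p) : lin g v ∈ lf D (g • p) := by
  rw [mem_lf] at hv ⊢
  rw [dpr_smul, mem_congr ((pr_cov (A := A)).map_smul g)]
  exact hv

/-- distribution on the quotient obtained from a family of subspaces -/
noncomputable def ds (K : E4 → Submodule ℝ E4) (y : BM A) : Submodule ℝ (TangentSpace (𝓡 4) y) :=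
  (show Submodule ℝ E4 from (K (sc A y)).map (dpr A (sc A y) : E4 →ₗ[ℝ] E4))

/-- invariance of a family of subspaces -/
def InvK (A : Fin 4 → Fin 4 → ℤ) (K : E4 → Submodule ℝ E4) : Prop :=
  ∀ (g : BG A) (p v : E4), v ∈ K p → lin g v ∈ K (g • p)

variable {K : E4 → Submodule ℝ E4}

lemma ds_le_aux (hK : InvK A K) (g : BG A) (p : E4) :
    (K p).map (dpr A p : E4 →ₗ[ℝ] E4) ≤ (K (g • p)).map (dpr A (g • p) : E4 →ₗ[ℝ] E4) := by
  rintro w ⟨v, hv, rfl⟩
  exact ⟨lin g v, hK g p v hv, dpr_smul g p v⟩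

lemma ds_apply (hK : InvK A K) (p : E4) :
    ds (A := A) K (pr A p) = (K p).map (dpr A p : E4 →ₗ[ℝ] E4) := by
  obtain ⟨g, hg⟩ := (pr_cov (A := A)).apply_eq_iff_mem_orbit.mp (sc_spec (pr A p))
  have hg' : sc A (pr A p) = g • p := hg.symm
  have h1 : (K (sc A (pr A p))).map (dpr A (sc A (pr A p)) : E4 →ₗ[ℝ] E4) =
      (K p).map (dpr A p : E4 →ₗ[ℝ] E4) := by
    rw [hg']
    apply le_antisymm
    · have := ds_le_aux hK g⁻¹ (g • p)
      rwa [inv_smul_smul] at this
    · exact ds_le_aux hK g p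
  exact h1

lemma lf_ds (hK : InvK A K) (p : E4) : lf (ds (A := A) K) p = K p := by
  ext v
  rw [mem_lf, ds_apply hK]
  constructor
  · rintro ⟨w, hw, hwv⟩
    have : w = v := (dpr_bij p).1 hwv
    rwa [← this]
  · intro hv
    exact ⟨v, hv, rfl⟩

/-- local push forward of a vector field -/
lemma local_push (p : E4) {X : E4 → E4} (hX : ∀ᶠ q in 𝓝 p, ContDiffAt ℝ ∞ X q) :
    ∃ Xb : (y : BM A) → TangentSpace (𝓡 4) y, SmoothNear Xb (pr A p) ∧
      ∀ᶠ q in 𝓝 p, Xb (pr A q) = dpr A q (X q) := by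
  set l := ((pr_diffeo (A := A)) p).localInverse with hl
  set Xb : (y : BM A) → TangentSpace (𝓡 4) y := mpullback (𝓡 4) (𝓡 4) l
    (fun u => (show TangentSpace (𝓡 4) u from X u)) with hXb
  have hsrc : l.source ∈ 𝓝 (pr A p) :=
    ((pr_diffeo (A := A)) p).localInverse_open_source.mem_nhds
      ((pr_diffeo (A := A)) p).localInverse_mem_source
  have htgt : l.target ∈ 𝓝 p :=
    l.open_target.mem_nhds ((pr_diffeo (A := A)) p).localInverse_mem_target
  have hval : ∀ u ∈ l.target, Xb (pr A u) = dpr A u (X u) := by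
    intro u hu
    have hlu : l (pr A u) = u := ((pr_diffeo (A := A)) p).localInverse_left_inv hu
    have hpu : pr A u ∈ l.source := by
      have h1 : l.symm u ∈ l.source := l.map_target hu
      have h3 : l.symm u = pr A u := by
        have h4 : l (l.symm u) = u := l.right_inv hu
        have h5 := ((pr_diffeo (A := A)) p).localInverse_right_inv h1
        rw [← h5, h4]
      rw [← h3]; exact h1
    have hlmd : MDifferentiableAt (𝓡 4) (𝓡 4) l (pr A u) := l.mdifferentiableAt (by simp) hpu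
    have hinvu : (mfderiv (𝓡 4) (𝓡 4) l (pr A u)).IsInvertible := by
      have := l.isLocalDiffeomorphAt _ _ _ hpu
      exact ⟨this.mfderivToContinuousLinearEquiv (by simp),
        this.mfderivToContinuousLinearEquiv_coe (by simp)⟩
    have hcomp : l ∘ pr A =ᶠ[𝓝 u] id := by
      have : l.target ∈ 𝓝 u := l.open_target.mem_nhds hu
      filter_upwards [this] with w hw
      exact ((pr_diffeo (A := A)) p).localInverse_left_inv hw
    have hchain := mfderiv_comp u hlmd (QuotMfd.mdiffAt pr_diffeo u)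
    rw [hcomp.mfderiv_eq, mfderiv_id] at hchain
    have hc2 := congrArg (fun L : E4 →L[ℝ] E4 => L (X u)) hchain
    rw [hXb, mpullback_apply]
    refine (hinvu.inverse_apply_eq).2 ?_
    rw [hlu]
    exact hc2
  refine ⟨Xb, ?_, ?_⟩
  · have hX2 : ∀ᶠ y in 𝓝 (pr A p), ContDiffAt ℝ ∞ X (l y) := by
      have hcont : ContinuousAt l (pr A p) :=
        (((pr_diffeo (A := A)) p).localInverse_contMDiffAt).continuousAt
      have hlp : l (pr A p) = p :=
        ((pr_diffeo (A := A)) p).localInverse_left_inv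
          ((pr_diffeo (A := A)) p).localInverse_mem_target
      apply hcont.eventually
      rw [hlp]
      exact hX
    filter_upwards [hX2, hsrc] with y hy hys
    have hX' : ContMDiffAt (𝓡 4) (𝓡 4).tangent ∞
        (fun u => (⟨u, X u⟩ : TangentBundle (𝓡 4) E4)) (l y) :=
      contMDiffAt_vectorSpace_iff_contDiffAt.2 hy
    have hls : ContMDiffAt (𝓡 4) (𝓡 4) ∞ l y :=
      (l.contMDiffOn).contMDiffAt (l.open_source.mem_nhds hys)
    have hinv : (mfderiv (𝓡 4) (𝓡 4) l y).IsInvertible := by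
      have := l.isLocalDiffeomorphAt _ _ _ hys
      exact ⟨this.mfderivToContinuousLinearEquiv (by simp),
        this.mfderivToContinuousLinearEquiv_coe (by simp)⟩
    exact ContMDiffAt.mpullback_vectorField_preimage hX' hls hinv (by simp)
  · filter_upwards [htgt] with u hu
    exact hval u hu

end Pool.Agent.Helper454.Bott
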