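import Pool.Agent.Helper454.Bott.Cons

set_option autoImplicit false
set_option linter.unusedSectionVars false
open scoped Manifold ContDiff Topology
open Set VectorField Pool.Agent.Helper454.EngelDefs

namespace Pool.Agent.Helper454.Bott

variable {A : Fin 4 → Fin 4 → ℤ} [LT A]

lemma norm_lin (g : BG A) (v : E4) : ‖lin g v‖ = ‖v‖ := by
  rw [EuclideanSpace.norm_eq, EuclideanSpace.norm_eq]
  congr 1
  refine Finset.sum_congr rfl fun i _ => ?_
  rw [lin_apply, norm_mul, Real.norm_eq_abs, abs_sg, one_mul]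

lemma cont_mk : Continuous (fun x : E4 × E4 => (⟨x.1, x.2⟩ : TangentBundle (𝓡 4) E4)) :=
  (tangentBundleModelSpaceHomeomorph (𝓡 4)).symm.continuous

lemma cont_N {N : TangentBundle (𝓡 4) (BM A) → ℝ} (hN : IsNormFamily N) :
    Continuous (fun x : E4 × E4 => N ⟨pr A x.1, dpr A x.1 x.2⟩) := by
  have h1 : Continuous (tangentMap (𝓡 4) (𝓡 4) (pr A)) :=
    (pr_diffeo (A := A)).contMDiff.continuous_tangentMap (by simp)
  exact hN.cont.comp (h1.comp cont_mk)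

lemma N_equi {N : TangentBundle (𝓡 4) (BM A) → ℝ} (g : BG A) (p v : E4) :
    N ⟨pr A (g • p), dpr A (g • p) (lin g v)⟩ = N ⟨pr A p, dpr A p v⟩ := by
  rw [dpr_smul]
  have h : pr A (g • p) = pr A p := (pr_cov (A := A)).map_smul g
  have key : ∀ (x y : BM A) (_ : x = y) (w : E4),
      N (⟨x, w⟩ : TangentBundle (𝓡 4) (BM A)) = N (⟨y, w⟩ : TangentBundle (𝓡 4) (BM A)) := by
    intro x y hxy w
    subst hxy
    rfl
  exact key _ _ h _

lemma N_bounds {N : TangentBundle (𝓡 4) (BM A) → ℝ} (hN : IsNormFamily N) :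
    ∃ m C : ℝ, 0 < m ∧ 0 < C ∧ ∀ p u : E4, m * ‖u‖ ≤ N ⟨pr A p, dpr A p u⟩ ∧
      N ⟨pr A p, dpr A p u⟩ ≤ C * ‖u‖ := by
  have hcont := cont_N hN
  set φ : E4 × E4 → ℝ := fun x => N ⟨pr A x.1, dpr A x.1 x.2⟩ with hφ
  set S : Set (E4 × E4) := box ×ˢ Metric.sphere (0 : E4) 1 with hS
  have hSc : IsCompact S := isCompact_box.prod (isCompact_sphere _ _)
  have hSne : S.Nonempty := by
    refine ⟨(0, EuclideanSpace.single 0 1), ?_, ?_⟩
    · intro i; simp
    · simp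
  have hpos : ∀ x ∈ S, 0 < φ x := by
    rintro ⟨p, u⟩ ⟨-, hu⟩
    apply hN.pos
    intro h0
    have h1 : u = 0 := (dpr_bij (A := A) p).1 (by rw [map_zero]; exact h0)
    rw [h1] at hu
    simp at hu
  obtain ⟨x0, hx0, hmin⟩ := hSc.exists_isMinOn hSne hcont.continuousOn
  obtain ⟨x1, hx1, hmax⟩ := hSc.exists_isMaxOn hSne hcont.continuousOn
  refine ⟨φ x0, φ x1, hpos x0 hx0, hpos x1 hx1, fun p u => ?_⟩
  by_cases hu : u = 0
  · rw [hu, map_zero]
    have h0 : N (⟨pr A p, (0 : E4)⟩ : TangentBundle (𝓡 4) (BM A)) = 0 := by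
      have := hN.smul (pr A p) 0 (0 : TangentSpace (𝓡 4) (pr A p))
      rw [zero_smul, abs_zero, zero_mul] at this
      exact this
    rw [h0]
    simp
  · obtain ⟨g, hg⟩ := exists_box (A := A) p
    have hnu : 0 < ‖u‖ := norm_pos_iff.2 hu
    set w : E4 := ‖u‖⁻¹ • lin g u with hw
    have hwS : ((g • p, w) : E4 × E4) ∈ S := by
      refine ⟨hg, ?_⟩
      rw [mem_sphere_zero_iff_norm, hw, norm_smul, norm_lin, norm_inv, norm_norm,
        inv_mul_cancel₀ hnu.ne']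
    have hval : N ⟨pr A p, dpr A p u⟩ = ‖u‖ * φ (g • p, w) := by
      rw [← N_equi (N := N) g p u]
      have h1 : lin g u = ‖u‖ • w := by
        rw [hw, smul_smul, mul_inv_cancel₀ hnu.ne', one_smul]
      rw [h1, map_smul]
      have := hN.smul (pr A (g • p)) ‖u‖ (dpr A (g • p) w)
      rw [abs_of_pos hnu] at this
      exact this
    rw [hval]
    constructor
    · have h1 : φ x0 ≤ φ (g • p, w) := hmin hwS
      nlinarith
    · have h1 : φ (g • p, w) ≤ φ x1 := hmax hwS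
      nlinarith

/-- Planes which are sufficiently close to `D₀` meet every complement-like set trivially. -/
theorem near_trans {N : TangentBundle (𝓡 4) (BM A) → ℝ} (hN : IsNormFamily N)
    (D₀ : (x : BM A) → Submodule ℝ (TangentSpace (𝓡 4) x)) :
    ∃ ε : ℝ, 0 < ε ∧ ∀ D : (x : BM A) → Submodule ℝ (TangentSpace (𝓡 4) x),
      IsClose N ε D₀ D → ∀ p v : E4, v ∈ lf D p →
        (∀ u ∈ lf D₀ p, inner ℝ v u = 0) → v = 0 := by
  obtain ⟨m, C, hm, hC, hb⟩ := N_bounds hN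
  refine ⟨m / (2 * C), by positivity, fun D hD p v hv hperp => ?_⟩
  by_contra hne
  have hnv : 0 < ‖v‖ := norm_pos_iff.2 hne
  obtain ⟨w, hw, hle⟩ := hD (pr A p) (dpr A p v) hv
  obtain ⟨u, hu⟩ := (dpr_bij (A := A) p).2 w
  have hu' : u ∈ lf D₀ p := by
    rw [mem_lf, hu]; exact hw
  have hlow : ‖v‖ ≤ ‖v - u‖ := by
    have h1 := hperp u hu'
    have h2 : ‖v - u‖ ^ 2 = ‖v‖ ^ 2 + ‖u‖ ^ 2 := by
      rw [norm_sub_sq_real, h1]; ring
    have h3 : ‖v‖ ^ 2 ≤ ‖v - u‖ ^ 2 := by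
      rw [h2]; nlinarith [sq_nonneg ‖u‖]
    exact (sq_le_sq₀ (norm_nonneg _) (norm_nonneg _)).1 h3
  have hle2 : N ⟨pr A p, dpr A p (v - u)⟩ ≤ m / (2 * C) * N ⟨pr A p, dpr A p v⟩ := by
    rw [map_sub, hu]
    exact hle
  have k1 := (hb p (v - u)).1
  have k2 := (hb p v).2
  have k3 : m / (2 * C) * N ⟨pr A p, dpr A p v⟩ ≤ m / (2 * C) * (C * ‖v‖) := by
    gcongr
  have k4 : m / (2 * C) * (C * ‖v‖) = m / 2 * ‖v‖ := by field_simp
  have k5 : m * ‖v‖ ≤ m * ‖v - u‖ := by gcongr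
  nlinarith

end Pool.Agent.Helper454.Bott
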